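import Pool.Agent.H.MP_8e3df5_co.Crit

/-!
The module of logarithmic derivations of a line arrangement: membership, grading, determinants.
-/

set_option autoImplicit false

namespace Pool.Agent.MP_8e3df5_co

open MvPolynomial

variable {K : Type*} [Field K]

/-- The defining polynomial of an arrangement. -/
noncomputable def QA (A : Finset (Projectivization K (Fin 3 → K))) : MvPolynomial (Fin 3) K :=
  ∏ H ∈ A, lin H.rep

/-- The module of logarithmic derivations. -/
noncomputable def DA (A : Finset (Projectivization K (Fin 3 → K))) :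
    Submodule (MvPolynomial (Fin 3) K) (Der K) :=
  Submodule.span (MvPolynomial (Fin 3) K) {θ : Der K | QA A ∣ θ (QA A)}

lemma rel_rep {H H' : Projectivization K (Fin 3 → K)} (h : H ≠ H') :
    IsRelPrime (lin H.rep) (lin H'.rep) := by
  apply lin_relPrime H.rep_nonzero
  intro c hc
  apply h
  rw [← H.mk_rep, ← H'.mk_rep, Projectivization.mk_eq_mk_iff']
  have hc0 : c ≠ 0 := by
    rintro rfl
    rw [zero_smul] at hc
    exact H'.rep_nonzero hc
  refine ⟨c⁻¹, ?_⟩
  rw [hc, smul_smul, inv_mul_cancel₀ hc0, one_smul]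

lemma QA_eq_mul (A : Finset (Projectivization K (Fin 3 → K)))
    [DecidableEq (Projectivization K (Fin 3 → K))]
    {H : Projectivization K (Fin 3 → K)} (hH : H ∈ A) :
    QA A = lin H.rep * QA (A.erase H) :=
  (Finset.mul_prod_erase A (fun H => lin H.rep) hH).symm

lemma not_dvd_erase (A : Finset (Projectivization K (Fin 3 → K)))
    [DecidableEq (Projectivization K (Fin 3 → K))]
    (H : Projectivization K (Fin 3 → K)) :
    ¬ lin H.rep ∣ QA (A.erase H) := by
  intro h
  have hp := lin_prime H.rep_nonzero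
  obtain ⟨H', hH', hd⟩ := hp.exists_mem_finset_dvd h
  have hne : H ≠ H' := by
    rintro rfl
    simp at hH'
  have := rel_rep hne
  rw [(lin_irreducible H.rep_nonzero).isRelPrime_iff_not_dvd] at this
  exact this hd

lemma QA_hom (A : Finset (Projectivization K (Fin 3 → K))) :
    (QA A).IsHomogeneous A.card := by
  have := IsHomogeneous.prod A (fun H : Projectivization K (Fin 3 → K) => lin H.rep)
    (fun _ => 1) (fun H _ => lin_isHomogeneous _)
  simpa [QA] using this

lemma QA_ne_zero (A : Finset (Projectivization K (Fin 3 → K))) : QA A ≠ 0 := by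
  unfold QA
  rw [Finset.prod_ne_zero_iff]
  intro H _
  exact lin_ne_zero H.rep_nonzero

lemma X_one_not_dvd (A : Finset (Projectivization K (Fin 3 → K)))
    (h0 : ∀ H ∈ A, H.rep 0 ≠ 0) : ¬ X 1 ∣ QA A := by
  rintro ⟨g, hg⟩
  have h1 := congrArg (eval (Pi.single (0 : Fin 3) (1 : K))) hg
  rw [map_mul, eval_X] at h1
  have h2 : (Pi.single (0 : Fin 3) (1 : K) : Fin 3 → K) 1 = 0 := by simp
  rw [h2, zero_mul] at h1
  unfold QA at h1
  rw [map_prod, Finset.prod_eq_zero_iff] at h1
  obtain ⟨H, hH, hz⟩ := h1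
  rw [eval_lin, Fin.sum_univ_three] at hz
  simp at hz
  exact h0 H hH hz

lemma mem_set_iff (A : Finset (Projectivization K (Fin 3 → K))) (θ : Der K) :
    QA A ∣ θ (QA A) ↔ ∀ H ∈ A, lin H.rep ∣ θ (lin H.rep) := by
  classical
  constructor
  · intro h H hH
    rw [QA_eq_mul A hH] at h
    have h1 : lin H.rep ∣ θ (lin H.rep * QA (A.erase H)) := dvd_trans (Dvd.intro _ rfl) h
    rw [Derivation.leibniz, smul_eq_mul, smul_eq_mul] at h1
    rw [dvd_add_right (Dvd.intro _ rfl)] at h1
    rcases (lin_prime H.rep_nonzero).dvd_or_dvd h1 with h2 | h2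
    · exact absurd h2 (not_dvd_erase A H)
    · exact h2
  · intro h
    have : ∀ s : Finset (Projectivization K (Fin 3 → K)),
        (∀ H ∈ s, lin H.rep ∣ θ (lin H.rep)) → QA s ∣ θ (QA s) := by
      intro s
      induction s using Finset.induction with
      | empty => intro _; simp [QA]
      | insert a s ha ih =>
        intro hs
        have e : QA (insert a s) = lin a.rep * QA s := by
          unfold QA
          rw [Finset.prod_insert ha]
        rw [e, Derivation.leibniz, smul_eq_mul, smul_eq_mul]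
        apply dvd_add
        · exact mul_dvd_mul_left _ (ih (fun H hH => hs H (Finset.mem_insert_of_mem hH)))
        · rw [mul_comm (lin a.rep)]
          exact mul_dvd_mul_left _ (hs a (Finset.mem_insert_self _ _))
    exact this A h

lemma mem_DA_iff (A : Finset (Projectivization K (Fin 3 → K))) (θ : Der K) :
    θ ∈ DA A ↔ ∀ H ∈ A, lin H.rep ∣ θ (lin H.rep) := by
  constructor
  · intro h H hH
    unfold DA at h
    induction h using Submodule.span_induction with
    | mem x hx => exact (mem_set_iff A x).mp hx H hH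
    | zero => simp
    | add x y _ _ hx hy => rw [Derivation.add_apply]; exact dvd_add hx hy
    | smul a x _ hx => rw [Derivation.smul_apply, smul_eq_mul]; exact Dvd.dvd.mul_left hx _
  · intro h
    exact Submodule.subset_span ((mem_set_iff A θ).mpr h)

lemma comp_mem (A : Finset (Projectivization K (Fin 3 → K))) (θ : Der K) (hθ : θ ∈ DA A)
    (n : ℕ) : comp n θ ∈ DA A := by
  rw [mem_DA_iff] at hθ ⊢
  intro H hH
  have h1 : comp n θ (lin H.rep) = homogeneousComponent n (θ (lin H.rep)) := by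
    rw [der_lin, der_lin, map_sum]
    simp only [comp_X, homogeneousComponent_C_mul]
  rw [h1]
  exact dvd_homogeneousComponent (lin_isHomogeneous _) (hθ H hH) n

lemma mem_of_mk {A : Finset (Projectivization K (Fin 3 → K))} {θ : Der K} (hθ : θ ∈ DA A)
    {v : Fin 3 → K} (hv : v ≠ 0) (hA : Projectivization.mk K v hv ∈ A) :
    lin v ∣ θ (lin v) := by
  obtain ⟨a, ha⟩ := Projectivization.exists_smul_eq_mk_rep K v hv
  have h1 := (mem_DA_iff A θ).mp hθ _ hA
  rw [← ha] at h1
  have e : lin (a • v) = C (a : K) * lin v := lin_smul (a : K) v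
  rw [e, Derivation.leibniz] at h1
  have e2 : θ (C (a : K)) = 0 := derivation_C θ _
  rw [e2, smul_zero, add_zero, smul_eq_mul] at h1
  have hu : IsUnit (C (a : K) : MvPolynomial (Fin 3) K) := (Units.isUnit a).map C
  rw [hu.dvd_mul_left] at h1
  exact dvd_trans (Dvd.intro_left _ rfl) h1

lemma smul_mem_DA (A : Finset (Projectivization K (Fin 3 → K))) (ξ : Der K) :
    QA A • ξ ∈ DA A := by
  rw [mem_DA_iff]
  intro H hH
  classical
  rw [Derivation.smul_apply, smul_eq_mul, QA_eq_mul A hH, mul_assoc]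
  exact Dvd.intro _ rfl

/-- The three coordinate derivations. -/
noncomputable def pd (i : Fin 3) : Der K := pderiv i

lemma exists_rank (A : Finset (Projectivization K (Fin 3 → K))) :
    ∃ η : Fin 3 → Der K, (∀ i, η i ∈ DA A) ∧ (cmat η).det ≠ 0 := by
  refine ⟨fun i => QA A • pd i, fun i => smul_mem_DA A _, ?_⟩
  have : cmat (fun i => QA A • (pd i : Der K)) = QA A • (1 : Matrix (Fin 3) (Fin 3) _) := by
    ext1 i j
    simp only [cmat, Matrix.of_apply, Derivation.smul_apply, pd, Matrix.smul_apply]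
    congr 1
    rw [pderiv_X, Matrix.one_apply, Pi.single_apply]
    simp [eq_comm]
  rw [this, Matrix.det_smul, Matrix.det_one, mul_one]
  exact pow_ne_zero _ (QA_ne_zero A)

lemma pd_X (i j : Fin 3) : (pd i : Der K) (X j) = if j = i then 1 else 0 := by
  unfold pd
  rw [pderiv_X, Pi.single_apply]

lemma pd_lin (i : Fin 3) (v : Fin 3 → K) : (pd i : Der K) (lin v) = C (v i) := by
  rw [der_lin]
  simp only [pd_X]
  simp

lemma det_dvd_aux (A : Finset (Projectivization K (Fin 3 → K)))
    [DecidableEq (Projectivization K (Fin 3 → K))]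
    (H : Projectivization K (Fin 3 → K)) (_hH : H ∈ A) (h0 : H.rep 0 ≠ 0)
    (Δ : MvPolynomial (Fin 3) K)
    (hΔ : ∀ η : Fin 3 → Der K, (∀ i, η i ∈ DA A) → Δ ∣ (cmat η).det) :
    Δ ∣ QA (A.erase H) ^ 2 * QA A := by
  set q := QA (A.erase H) with hq
  set v := H.rep with hv
  let η : Fin 3 → Der K := ![q • ((C (v 1) : MvPolynomial (Fin 3) K) • pd 0 -
      (C (v 0) : MvPolynomial (Fin 3) K) • pd 1),
    q • ((C (v 2) : MvPolynomial (Fin 3) K) • pd 0 -
      (C (v 0) : MvPolynomial (Fin 3) K) • pd 2), QA A • pd 0]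
  have hmem : ∀ ξ : Der K, ξ (lin v) = 0 → q • ξ ∈ DA A := by
    intro ξ hξ
    rw [mem_DA_iff]
    intro H' hH'
    rw [Derivation.smul_apply, smul_eq_mul]
    by_cases he : H' = H
    · rw [he, ← hv, hξ, mul_zero]
      exact dvd_zero _
    · apply Dvd.dvd.mul_right
      rw [hq]
      exact Finset.dvd_prod_of_mem (fun H : Projectivization K (Fin 3 → K) => lin H.rep)
        (Finset.mem_erase.mpr ⟨he, hH'⟩)
  have hη : ∀ i, η i ∈ DA A := by
    intro i
    fin_cases i
    · apply hmem
      simp only [Derivation.sub_apply, Derivation.smul_apply, pd_lin, smul_eq_mul]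
      ring
    · apply hmem
      simp only [Derivation.sub_apply, Derivation.smul_apply, pd_lin, smul_eq_mul]
      ring
    · exact smul_mem_DA A _
  have hdet : (cmat η).det = C (v 0 ^ 2) * (q ^ 2 * QA A) := by
    rw [Matrix.det_fin_three]
    simp [cmat, η, pd_X]
    ring
  have h1 := hΔ η hη
  rw [hdet] at h1
  have hu : IsUnit (C (v 0 ^ 2) : MvPolynomial (Fin 3) K) :=
    (isUnit_iff_ne_zero.mpr (pow_ne_zero 2 h0)).map C
  rwa [hu.dvd_mul_left] at h1

lemma det_dvd_QA (A : Finset (Projectivization K (Fin 3 → K))) (hne : A.Nonempty)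
    (h0 : ∀ H ∈ A, H.rep 0 ≠ 0) (Δ : MvPolynomial (Fin 3) K)
    (hΔ : ∀ η : Fin 3 → Der K, (∀ i, η i ∈ DA A) → Δ ∣ (cmat η).det) :
    Δ ∣ QA A := by
  classical
  obtain ⟨H₀, hH₀⟩ := hne
  have hQ0 := QA_ne_zero A
  have hd0 := det_dvd_aux A H₀ hH₀ (h0 H₀ hH₀) Δ hΔ
  have hd1 : Δ ∣ QA A ^ 3 := by
    apply hd0.trans
    have : QA (A.erase H₀) ∣ QA A := by rw [QA_eq_mul A hH₀]; exact Dvd.intro_left _ rfl
    calc QA (A.erase H₀) ^ 2 * QA A ∣ QA A ^ 2 * QA A := mul_dvd_mul (pow_dvd_pow_of_dvd this 2) dvd_rfl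
      _ = QA A ^ 3 := by ring
  have hΔ0 : Δ ≠ 0 := by
    intro h
    rw [h, zero_dvd_iff] at hd1
    exact pow_ne_zero 3 hQ0 hd1
  have hsq : Squarefree Δ := by
    rw [squarefree_iff_irreducible_sq_not_dvd_of_ne_zero hΔ0]
    intro x hx hxx
    have hxp := hx.prime
    have hxQ : x ∣ QA A := hxp.dvd_of_dvd_pow ((dvd_trans (Dvd.intro _ rfl) hxx).trans hd1)
    obtain ⟨H, hH, hxH⟩ := hxp.exists_mem_finset_dvd hxQ
    have hass : Associated x (lin H.rep) :=
      hx.associated_of_dvd (lin_irreducible H.rep_nonzero) hxH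
    have h2 : lin H.rep * lin H.rep ∣ Δ := (hass.mul_mul hass).symm.dvd.trans hxx
    have h3 := h2.trans (det_dvd_aux A H hH (h0 H hH) Δ hΔ)
    rw [QA_eq_mul A hH] at h3
    have h4 : lin H.rep ∣ QA (A.erase H) ^ 3 := by
      apply (mul_dvd_mul_iff_left (lin_ne_zero H.rep_nonzero)).mp
      convert h3 using 1
      ring
    exact not_dvd_erase A H ((lin_prime H.rep_nonzero).dvd_of_dvd_pow h4)
  exact (hsq.dvd_pow_iff_dvd (by norm_num)).mp hd1

end Pool.Agent.MP_8e3df5_co
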