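import Pool.Agent.H.MP_8e3df5_co.Low

/-!
The configuration of 22 lines.
-/

set_option autoImplicit false

namespace Pool.Agent.MP_8e3df5_co

open MvPolynomial

variable {K : Type*} [Field K] [CharZero K] [DecidableEq K]

/-- Third roots of unity. -/
def M3 (w : K) : Finset K := {1, w, w ^ 2}

/-- Fourth roots of unity. -/
def M4 (i : K) : Finset K := {1, i, -1, -i}

/-- A square root of three. -/
def sq3 (w i : K) : K := -i * (2 * w + 1)

/-- The affine coordinates of the 22 lines. -/
def EE (w i : K) : Finset (K × K) :=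
  (M3 w ×ˢ M4 i) ∪ (M3 w).image (fun a => (a * (sq3 w i - 1) / 2, 0)) ∪
    (M3 w).image (fun a => (-a * (sq3 w i + 1) / 2, 0)) ∪
    (M4 i).image (fun b => (0, b * sq3 w i / 3))

section

variable (w i : K) (hw : w ^ 2 + w + 1 = 0) (hi : i ^ 2 = -1)

include hw in
lemma M3_card : (M3 w).card = 3 := by
  unfold M3
  rw [Finset.card_eq_three]
  refine ⟨1, w, w ^ 2, ?_, ?_, ?_, rfl⟩ <;> grind

include hi in
lemma M4_card : (M4 i).card = 4 := by
  unfold M4
  rw [Finset.card_insert_of_notMem, Finset.card_insert_of_notMem,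
    Finset.card_insert_of_notMem, Finset.card_singleton]
  · simp only [Finset.mem_singleton]; grind
  · simp only [Finset.mem_singleton, Finset.mem_insert, not_or]
    refine ⟨?_, ?_⟩ <;> grind
  · simp only [Finset.mem_singleton, Finset.mem_insert, not_or]
    refine ⟨?_, ?_, ?_⟩ <;> grind

lemma M3_ne_zero (hw : w ^ 2 + w + 1 = 0) {a : K} (ha : a ∈ M3 w) : a ≠ 0 := by
  simp only [M3, Finset.mem_insert, Finset.mem_singleton] at ha
  rcases ha with h | h | h <;> subst h <;> grind

lemma M4_ne_zero (hi : i ^ 2 = -1) {a : K} (ha : a ∈ M4 i) : a ≠ 0 := by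
  simp only [M4, Finset.mem_insert, Finset.mem_singleton] at ha
  rcases ha with h | h | h | h <;> subst h <;> grind

omit [CharZero K] in
lemma EE_card : (EE w i).card ≤ 22 := by
  have h3 : (M3 w).card ≤ 3 := Finset.card_le_three
  have h4 : (M4 i).card ≤ 4 := Finset.card_le_four
  have hp : (M3 w ×ˢ M4 i).card ≤ 12 := by
    rw [Finset.card_product]
    calc (M3 w).card * (M4 i).card ≤ 3 * 4 := Nat.mul_le_mul h3 h4
      _ = 12 := rfl
  unfold EE
  refine (Finset.card_union_le _ _).trans ?_
  refine (add_le_add ((Finset.card_union_le _ _).trans (add_le_add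
    ((Finset.card_union_le _ _).trans (add_le_add hp (Finset.card_image_le.trans h3)))
    (Finset.card_image_le.trans h3))) (Finset.card_image_le.trans h4)).trans ?_
  norm_num

/-- First coordinates of the ten directions. -/
def dx (w i : K) : Fin 10 → K :=
  ![w - 1, 0, w - 1, w ^ 2 - 1, w - 1, w - 1, w ^ 2 - 1, w ^ 2 - 1,
    (sq3 w i - 3) / 2, -(sq3 w i + 3) / 2]

/-- Second coordinates of the ten directions. -/
def dy (i : K) : Fin 10 → K :=
  ![0, i - 1, -2, -2, i - 1, -i - 1, i - 1, -i - 1, -1, -1]

omit [DecidableEq K] in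
include hw hi in
lemma dxy (j k : Fin 10) (hjk : j ≠ k) : dx w i j * dy i k ≠ dx w i k * dy i j := by
  have hs : sq3 w i = -i * (2 * w + 1) := rfl
  fin_cases j <;> fin_cases k <;> first
    | exact absurd rfl hjk
    | (simp only [dx, dy, Matrix.cons_val, Fin.zero_eta, Fin.mk_one, Fin.reduceFinMk]
       intro h
       grind)

omit [DecidableEq K] in
include hw hi in
lemma dxy_ne (j : Fin 10) : dx w i j ≠ 0 ∨ dy i j ≠ 0 := by
  by_contra hcon
  push Not at hcon
  have h := dxy w i hw hi j (j + 1) (by
    intro h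
    have := congrArg Fin.val h
    fin_cases j <;> simp at this)
  apply h
  rw [hcon.1, hcon.2]
  ring

open scoped Classical in
/-- The arrangement. -/
noncomputable def AA : Finset (Projectivization K (Fin 3 → K)) :=
  (EE w i).image fun e => Projectivization.mk K ![1, e.1, e.2] (lin_one_ne_zero e.1 e.2)

omit [CharZero K] in
lemma AA_card : (AA w i).card ≤ 22 := by
  classical
  unfold AA
  exact Finset.card_image_le.trans (EE_card w i)

omit [CharZero K] in
lemma AA_rep {H : Projectivization K (Fin 3 → K)} (hH : H ∈ AA w i) : H.rep 0 ≠ 0 := by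
  classical
  unfold AA at hH
  rw [Finset.mem_image] at hH
  obtain ⟨e, _, rfl⟩ := hH
  obtain ⟨a, ha⟩ := Projectivization.exists_smul_eq_mk_rep K ![1, e.1, e.2]
    (lin_one_ne_zero e.1 e.2)
  rw [← ha]
  simp [Units.smul_def]

omit [CharZero K] in
lemma mem_AA {c d : K} (h : (c, d) ∈ EE w i) {θ : Der K} (hθ : θ ∈ DA (AA w i)) :
    lin ![1, c, d] ∣ θ (lin ![1, c, d]) := by
  classical
  apply mem_of_mk hθ (lin_one_ne_zero c d)
  unfold AA
  exact Finset.mem_image_of_mem (fun e : K × K => Projectivization.mk K ![1, e.1, e.2]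
    (lin_one_ne_zero e.1 e.2)) h

include hw in
omit [CharZero K] in
lemma M3_mul {a : K} (ha : a ∈ M3 w) : w * a ∈ M3 w := by
  simp only [M3, Finset.mem_insert, Finset.mem_singleton] at ha ⊢
  rcases ha with h | h | h <;> subst h
  · right; left; ring
  · right; right; ring
  · left
    grind

include hi in
omit [CharZero K] in
lemma M4_mul {a : K} (ha : a ∈ M4 i) : i * a ∈ M4 i := by
  simp only [M4, Finset.mem_insert, Finset.mem_singleton] at ha ⊢
  rcases ha with h | h | h | h <;> subst h
  · right; left; ring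
  · right; right; left; rw [← hi]; ring
  · right; right; right; ring
  · left; grind

omit [CharZero K] in
lemma EE_grid {a b : K} (ha : a ∈ M3 w) (hb : b ∈ M4 i) : (a, b) ∈ EE w i := by
  unfold EE
  simp only [Finset.mem_union, Finset.mem_product]
  exact Or.inl (Or.inl (Or.inl ⟨ha, hb⟩))

omit [CharZero K] in
lemma EE_u {a : K} (ha : a ∈ M3 w) : (a * (sq3 w i - 1) / 2, (0 : K)) ∈ EE w i := by
  unfold EE
  simp only [Finset.mem_union, Finset.mem_image]
  exact Or.inl (Or.inl (Or.inr ⟨a, ha, rfl⟩))

omit [CharZero K] in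
lemma EE_v {a : K} (ha : a ∈ M3 w) : (-a * (sq3 w i + 1) / 2, (0 : K)) ∈ EE w i := by
  unfold EE
  simp only [Finset.mem_union, Finset.mem_image]
  exact Or.inl (Or.inr ⟨a, ha, rfl⟩)

omit [CharZero K] in
lemma EE_t {b : K} (hb : b ∈ M4 i) : ((0 : K), b * sq3 w i / 3) ∈ EE w i := by
  unfold EE
  simp only [Finset.mem_union, Finset.mem_image]
  exact Or.inr ⟨b, hb, rfl⟩

/-- The ten points on a line of the grid. -/
noncomputable def PP (a b : K) (j : Fin 10) : Fin 3 → K :=
  ![1, a * (1 + dx w i j), b * (1 + dy i j)]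

include hw hi in
lemma PP_mem {a b : K} (ha : a ∈ M3 w) (hb : b ∈ M4 i) (j : Fin 10) :
    (a * (1 + dx w i j), b * (1 + dy i j)) ∈ EE w i := by
  have hwa := M3_mul w hw ha
  have hwwa := M3_mul w hw hwa
  have hib := M4_mul i hi hb
  have hiib := M4_mul i hi hib
  have hiiib := M4_mul i hi hiib
  have hs : sq3 w i = -i * (2 * w + 1) := rfl
  fin_cases j
  · have := EE_grid w i hwa hb
    convert this using 2 <;> simp [dx, dy]
    ring
  · have := EE_grid w i ha hib
    convert this using 2 <;> simp [dx, dy]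
    ring
  · have := EE_grid w i hwa hiib
    convert this using 2 <;> simp [dx, dy]
    · ring
    · grind
  · have := EE_grid w i hwwa hiib
    convert this using 2 <;> simp [dx, dy]
    · ring
    · grind
  · have := EE_grid w i hwa hib
    convert this using 2 <;> simp [dx, dy]
    · ring
    · ring
  · have := EE_grid w i hwa hiiib
    convert this using 2 <;> simp [dx, dy]
    · ring
    · grind
  · have := EE_grid w i hwwa hib
    convert this using 2 <;> simp [dx, dy]
    · ring
    · ring
  · have := EE_grid w i hwwa hiiib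
    convert this using 2 <;> simp [dx, dy]
    · ring
    · grind
  · have := EE_u w i ha
    convert this using 2 <;> simp [dx, dy]
    ring
  · have := EE_v w i ha
    convert this using 2 <;> simp [dx, dy]
    ring

end

end Pool.Agent.MP_8e3df5_co
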