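import Pool.Agent.H.MP_8e3df5_co.Free

/-!
The criterion: a graded module of derivations with a suitable gap between the degrees of its
elements is not free.
-/

set_option autoImplicit false

namespace Pool.Agent.MP_8e3df5_co

open MvPolynomial

variable {K : Type*} [Field K]

lemma finrank_eq_three (D : Submodule (MvPolynomial (Fin 3) K) (Der K))
    (hrank : ∃ η : Fin 3 → Der K, (∀ i, η i ∈ D) ∧ (cmat η).det ≠ 0) :
    Module.finrank (MvPolynomial (Fin 3) K) D = 3 := by
  have hinj : Function.Injective ((ev (K := K)).comp D.subtype) :=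
    ev_injective.comp D.injective_subtype
  apply le_antisymm
  · have := LinearMap.finrank_le_finrank_of_injective hinj
    simpa using this
  · obtain ⟨η, hη, hdet⟩ := hrank
    have hli : LinearIndependent (MvPolynomial (Fin 3) K) (fun i => (⟨η i, hη i⟩ : D)) := by
      apply LinearIndependent.of_comp ((ev (K := K)).comp D.subtype)
      have : ((ev (K := K)).comp D.subtype) ∘ (fun i => (⟨η i, hη i⟩ : D)) = (cmat η).row := by
        funext i j
        rfl
      rw [this]
      exact Matrix.linearIndependent_rows_of_det_ne_zero hdet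
    have : Module.Finite (MvPolynomial (Fin 3) K) D := Module.Finite.of_injective _ hinj
    have := hli.fintype_card_le_finrank
    simpa using this

lemma exists_transition (D : Submodule (MvPolynomial (Fin 3) K) (Der K))
    (b : Module.Basis (Fin 3) (MvPolynomial (Fin 3) K) D)
    (η : Fin 3 → Der K) (hη : ∀ i, η i ∈ D) :
    cmat η = (Matrix.of fun i j => b.repr ⟨η i, hη i⟩ j) * cmat fun i => (b i : Der K) := by
  ext1 i j
  have h := congrArg (fun x : D => (x : Der K) (X j)) (b.sum_repr ⟨η i, hη i⟩)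
  simp only at h
  rw [Matrix.mul_apply]
  simp only [cmat, Matrix.of_apply]
  rw [← h]
  have h2 : ∀ s : Finset (Fin 3), ((∑ k ∈ s, b.repr ⟨η i, hη i⟩ k • b k : D) : Der K) (X j) =
      ∑ k ∈ s, b.repr ⟨η i, hη i⟩ k * (b k : Der K) (X j) := by
    intro s
    classical
    induction s using Finset.induction with
    | empty => simp
    | insert a s ha ih =>
      rw [Finset.sum_insert ha, Finset.sum_insert ha, ← ih]
      simp
  exact h2 _

lemma exists_choice {B : ℕ} (t : Fin 3 → ℕ → Fin 3 → K)
    (ht : ∀ i, ∑ n ∈ Finset.range B, t i n = Pi.single i 1) :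
    ∃ k : Fin 3 → ℕ, (Matrix.of fun i => t i (k i)).det ≠ 0 := by
  classical
  by_contra hcon
  push Not at hcon
  have h1 := (Matrix.detRowAlternating (n := Fin 3) (R := K)).toMultilinearMap.map_sum_finset
    (fun i n => t i n) (fun _ => Finset.range B)
  have h2 : (fun i => ∑ n ∈ Finset.range B, t i n) = (1 : Matrix (Fin 3) (Fin 3) K) := by
    funext i
    rw [ht i]
    funext j
    simp [Matrix.one_apply, Pi.single_apply, eq_comm]
  rw [h2] at h1
  have h3 : (Matrix.detRowAlternating (n := Fin 3) (R := K)).toMultilinearMap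
      (1 : Matrix (Fin 3) (Fin 3) K) = 1 := Matrix.det_one
  rw [h3] at h1
  rw [Finset.sum_eq_zero] at h1
  · exact one_ne_zero h1
  · intro k _
    exact hcon k

lemma det_zero_of_two_euler (η : Fin 3 → Der K) (i j : Fin 3) (hij : i ≠ j)
    (g h : MvPolynomial (Fin 3) K) (hi : ∀ a, η i (X a) = g * X a)
    (hj : ∀ a, η j (X a) = h * X a) : (cmat η).det = 0 := by
  rw [Matrix.det_fin_three]
  simp only [cmat, Matrix.of_apply]
  fin_cases i <;> fin_cases j <;> simp at hij <;> simp at hi hj <;> simp only [hi, hj] <;> ring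

lemma det_zero_of_row_zero (η : Fin 3 → Der K) (i : Fin 3)
    (hi : ∀ a, η i (X a) = 0) : (cmat η).det = 0 := by
  apply Matrix.det_eq_zero_of_row_eq_zero i
  intro a
  exact hi a

/-- The criterion for non-freeness. -/
theorem not_free_of (D : Submodule (MvPolynomial (Fin 3) K) (Der K)) (N m r : ℕ)
    (Q : MvPolynomial (Fin 3) K) (hQ : Q.IsHomogeneous N) (hQ0 : Q ≠ 0) (hQ1 : ¬ X 1 ∣ Q)
    (hgr : ∀ θ ∈ D, ∀ n, comp n θ ∈ D)
    (hrank : ∃ η : Fin 3 → Der K, (∀ i, η i ∈ D) ∧ (cmat η).det ≠ 0)
    (hdet : ∀ Δ : MvPolynomial (Fin 3) K,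
      (∀ η : Fin 3 → Der K, (∀ i, η i ∈ D) → Δ ∣ (cmat η).det) → Δ ∣ Q)
    (hlow : ∀ θ ∈ D, ∀ k ≤ r, (∀ i, (θ (X i)).IsHomogeneous k) →
      ∃ g, ∀ i, θ (X i) = g * X i)
    (hmid : ∀ θ ∈ D, ∀ k ≤ m, (∀ i, (θ (X i)).IsHomogeneous k) → X 1 ∣ θ (X 1))
    (hnum : N ≤ m + r + 2) :
    ¬ Module.Free (MvPolynomial (Fin 3) K) D := by
  classical
  intro hfree
  have hfr := finrank_eq_three D hrank
  have hfin : Module.Finite (MvPolynomial (Fin 3) K) D := by
    have hinj : Function.Injective ((ev (K := K)).comp D.subtype) :=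
      ev_injective.comp D.injective_subtype
    exact Module.Finite.of_injective _ hinj
  let b : Module.Basis (Fin 3) (MvPolynomial (Fin 3) K) D :=
    Module.finBasisOfFinrankEq (MvPolynomial (Fin 3) K) D hfr
  set Δ : MvPolynomial (Fin 3) K := (cmat fun i => (b i : Der K)).det with hΔ
  have hΔQ : Δ ∣ Q := by
    apply hdet
    intro η hη
    rw [exists_transition D b η hη, Matrix.det_mul]
    exact Dvd.intro_left _ rfl
  have hΔ0 : Δ ≠ 0 := by
    intro h
    rw [h, zero_dvd_iff] at hΔQ
    exact hQ0 hΔQ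
  -- a bound for the degrees
  obtain ⟨B, hB⟩ : ∃ B : ℕ, ∀ i j, ((b i : Der K) (X j)).totalDegree < B := by
    refine ⟨(∑ i, ∑ j, ((b i : Der K) (X j)).totalDegree) + 1, ?_⟩
    intro i j
    have h1 : ((b i : Der K) (X j)).totalDegree ≤ ∑ j, ((b i : Der K) (X j)).totalDegree :=
      Finset.single_le_sum (f := fun j => ((b i : Der K) (X j)).totalDegree)
        (fun _ _ => Nat.zero_le _) (Finset.mem_univ j)
    have h2 : (∑ j, ((b i : Der K) (X j)).totalDegree) ≤
        ∑ i, ∑ j, ((b i : Der K) (X j)).totalDegree :=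
      Finset.single_le_sum (f := fun i => ∑ j, ((b i : Der K) (X j)).totalDegree)
        (fun _ _ => Nat.zero_le _) (Finset.mem_univ i)
    omega
  have hcm : ∀ i n, comp n (b i : Der K) ∈ D := fun i n => hgr _ (b i).2 n
  let T : Fin 3 → ℕ → Fin 3 → MvPolynomial (Fin 3) K :=
    fun i n j => b.repr ⟨comp n (b i : Der K), hcm i n⟩ j
  have hT : ∀ i, ∑ n ∈ Finset.range B, T i n = Pi.single i 1 := by
    intro i
    have h1 : (∑ n ∈ Finset.range B, (⟨comp n (b i : Der K), hcm i n⟩ : D)) = b i := by
      apply Subtype.ext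
      have h2 : ((∑ n ∈ Finset.range B, (⟨comp n (b i : Der K), hcm i n⟩ : D) : D) : Der K) =
          ∑ n ∈ Finset.range B, comp n (b i : Der K) := by
        rw [← D.subtype_apply, map_sum]
        rfl
      rw [h2]
      exact sum_comp _ B (hB i)
    funext j
    have h3 := congrArg (fun x => b.repr x j) h1
    simp only [map_sum, Finsupp.coe_finsetSum, Finset.sum_apply, Module.Basis.repr_self] at h3
    rw [Finset.sum_apply]
    show ∑ n ∈ Finset.range B, b.repr ⟨comp n (b i : Der K), hcm i n⟩ j = _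
    rw [h3, Finsupp.single_apply, Pi.single_apply]
    simp [eq_comm]
  obtain ⟨k, hk⟩ := exists_choice (B := B) (fun i n j => constantCoeff (T i n j)) (by
    intro i
    funext j
    have h1 := congrArg (fun f => constantCoeff (f j)) (hT i)
    simp only [Finset.sum_apply, map_sum] at h1
    rw [Finset.sum_apply, h1, Pi.single_apply, Pi.single_apply]
    split_ifs <;> simp)
  let η : Fin 3 → Der K := fun i => comp (k i) (b i : Der K)
  have hη : ∀ i, η i ∈ D := fun i => hcm i (k i)
  have hηh : ∀ i j, (η i (X j)).IsHomogeneous (k i) := by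
    intro i j
    show (comp (k i) (b i : Der K) (X j)).IsHomogeneous (k i)
    rw [comp_X]
    exact homogeneousComponent_isHomogeneous _ _
  have htr := exists_transition D b η hη
  set U : Matrix (Fin 3) (Fin 3) (MvPolynomial (Fin 3) K) :=
    Matrix.of fun i j => b.repr ⟨η i, hη i⟩ j with hU
  have hUc : constantCoeff U.det ≠ 0 := by
    have : constantCoeff U.det = (Matrix.of fun i => (fun i n j => constantCoeff (T i n j)) i
        (k i)).det := by
      rw [RingHom.map_det]
      rfl
    rw [this]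
    exact hk
  have hU0 : U.det ≠ 0 := by
    intro h
    rw [h, map_zero] at hUc
    exact hUc rfl
  have hdetη : (cmat η).det = U.det * Δ := by
    rw [htr, Matrix.det_mul]
  have hdetη0 : (cmat η).det ≠ 0 := by
    rw [hdetη]
    exact mul_ne_zero hU0 hΔ0
  -- degrees
  have hsum : ∑ i, k i ≤ N := by
    have h1 := trailing_eq (det_cmat_hom η k hηh) hdetη0
    rw [hdetη, trailing_mul hU0 hΔ0, trailing_const hUc] at h1
    obtain ⟨g, hg⟩ := hΔQ
    have hg0 : g ≠ 0 := by rintro rfl; rw [mul_zero] at hg; exact hQ0 hg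
    have h2 := trailing_eq hQ hQ0
    rw [hg, trailing_mul hΔ0 hg0] at h2
    omega
  have hsum3 : k 0 + k 1 + k 2 ≤ N := by
    rw [Fin.sum_univ_three] at hsum
    exact hsum
  have hpos : ∀ i, 1 ≤ k i := by
    intro i
    by_contra hlt
    have hk0 : k i = 0 := by omega
    obtain ⟨g, hg⟩ := hlow (η i) (hη i) (k i) (by omega) (hηh i)
    apply hdetη0
    apply det_zero_of_row_zero η i
    have hg0 : g = 0 := by
      by_contra hne
      have h1 := hηh i 0
      rw [hg 0, hk0] at h1
      have h2 := h1.totalDegree (mul_ne_zero hne (X_ne_zero 0))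
      rw [totalDegree_mul_of_isDomain hne (X_ne_zero 0), totalDegree_X] at h2
      omega
    intro a
    rw [hg a, hg0, zero_mul]
  have htwo : ∀ i j, i ≠ j → r < k i ∨ r < k j := by
    intro i j hij
    by_contra hcon
    push Not at hcon
    obtain ⟨g, hg⟩ := hlow (η i) (hη i) (k i) hcon.1 (hηh i)
    obtain ⟨h, hh⟩ := hlow (η j) (hη j) (k j) hcon.2 (hηh j)
    exact hdetη0 (det_zero_of_two_euler η i j hij g h hg hh)
  have hle : ∀ i, k i ≤ m := by
    have p0 := hpos 0
    have p1 := hpos 1
    have p2 := hpos 2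
    have t01 := htwo 0 1 (by decide)
    have t02 := htwo 0 2 (by decide)
    have t12 := htwo 1 2 (by decide)
    intro i
    fin_cases i
    · show k 0 ≤ m
      omega
    · show k 1 ≤ m
      omega
    · show k 2 ≤ m
      omega
  have hcol : ∀ i, X 1 ∣ cmat η i 1 := fun i => hmid (η i) (hη i) (k i) (hle i) (hηh i)
  have hX : (X 1 : MvPolynomial (Fin 3) K) ∣ (cmat η).det := by
    rw [Matrix.det_apply]
    apply Finset.dvd_sum
    intro σ _
    apply dvd_smul_of_dvd
    apply dvd_trans _ (Finset.dvd_prod_of_mem _ (Finset.mem_univ 1))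
    exact hcol _
  rw [hdetη] at hX
  rcases (X_prime (R := K) (i := (1 : Fin 3))).dvd_or_dvd hX with h | h
  · obtain ⟨g, hg⟩ := h
    apply hUc
    rw [hg, map_mul, constantCoeff_X, zero_mul]
  · exact hQ1 (h.trans hΔQ)

end Pool.Agent.MP_8e3df5_co
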