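import Pool.Agent.H.MP_8e3df5_co.Lin

/-!
An abstract criterion for a graded module of derivations of the polynomial ring in three variables
not to be free.
-/

set_option autoImplicit false

namespace Pool.Agent.MP_8e3df5_co

open MvPolynomial

variable {K : Type*} [Field K]

/-- Derivations of the polynomial ring in three variables. -/
abbrev Der (K : Type*) [Field K] : Type _ :=
  Derivation K (MvPolynomial (Fin 3) K) (MvPolynomial (Fin 3) K)

/-- The coefficient matrix of three derivations. -/
noncomputable def cmat (η : Fin 3 → Der K) : Matrix (Fin 3) (Fin 3) (MvPolynomial (Fin 3) K) :=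
  Matrix.of fun i j => η i (X j)

/-- The homogeneous component of a derivation. -/
noncomputable def comp (n : ℕ) (θ : Der K) : Der K :=
  mkDerivation K fun i => homogeneousComponent n (θ (X i))

lemma comp_X (n : ℕ) (θ : Der K) (i : Fin 3) :
    comp n θ (X i) = homogeneousComponent n (θ (X i)) := by
  simp [comp, mkDerivation_X]

/-- Evaluation of a derivation at the variables. -/
noncomputable def ev : Der K →ₗ[MvPolynomial (Fin 3) K] (Fin 3 → MvPolynomial (Fin 3) K) where
  toFun θ := fun i => θ (X i)
  map_add' := by intro a b; rfl
  map_smul' := by intro a b; rfl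

lemma ev_injective : Function.Injective (ev (K := K)) := by
  intro a b h
  apply derivation_ext
  intro i
  exact congrFun h i

lemma sum_comp (θ : Der K) (B : ℕ) (hB : ∀ i, (θ (X i)).totalDegree < B) :
    ∑ n ∈ Finset.range B, comp n θ = θ := by
  apply derivation_ext
  intro i
  have h1 : (∑ n ∈ Finset.range B, comp n θ) (X i) = ∑ n ∈ Finset.range B, comp n θ (X i) := by
    have : ∀ s : Finset ℕ, (∑ n ∈ s, comp n θ) (X i) = ∑ n ∈ s, comp n θ (X i) := by
      intro s
      classical
      induction s using Finset.induction with
      | empty => simp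
      | insert a s ha ih => rw [Finset.sum_insert ha, Finset.sum_insert ha, Derivation.add_apply, ih]
    exact this _
  rw [h1]
  simp only [comp_X]
  conv_rhs => rw [← sum_homogeneousComponent (θ (X i))]
  symm
  apply Finset.sum_subset
  · intro x hx
    simp only [Finset.mem_range] at hx ⊢
    have := hB i
    omega
  · intro x _ hx
    simp only [Finset.mem_range] at hx
    apply homogeneousComponent_eq_zero
    omega

/-- The scaling homomorphism. -/
noncomputable def scal : MvPolynomial (Fin 3) K →ₐ[K] Polynomial (MvPolynomial (Fin 3) K) :=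
  aeval fun i => Polynomial.C (X i) * Polynomial.X

lemma scal_hom {f : MvPolynomial (Fin 3) K} {n : ℕ} (hf : f.IsHomogeneous n) :
    scal f = Polynomial.C f * Polynomial.X ^ n := by
  classical
  have h : ∀ d ∈ f.support, scal (monomial d (coeff d f)) =
      Polynomial.C (monomial d (coeff d f)) * Polynomial.X ^ n := by
    intro d hd
    have hdeg : d.degree = n := by
      have := hf (mem_support_iff.mp hd)
      rwa [Finsupp.degree_eq_weight_one]
    unfold scal
    rw [aeval_monomial]
    have h2 : (d.prod fun i k => (Polynomial.C (X i : MvPolynomial (Fin 3) K) *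
        Polynomial.X) ^ k) =
        Polynomial.C (d.prod fun i k => (X i : MvPolynomial (Fin 3) K) ^ k) *
          Polynomial.X ^ n := by
      rw [← hdeg]
      simp only [Finsupp.prod, mul_pow, Finset.prod_mul_distrib, map_prod, map_pow,
        Finsupp.degree, Finset.prod_pow_eq_pow_sum]
      rfl
    rw [h2, ← mul_assoc]
    congr 1
    rw [show (algebraMap K (Polynomial (MvPolynomial (Fin 3) K))) (coeff d f) =
      Polynomial.C (C (coeff d f)) from rfl, ← map_mul]
    congr 1
    rw [monomial_eq]
  conv_lhs => rw [f.as_sum]
  conv_rhs => rw [f.as_sum]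
  rw [map_sum, map_sum, Finset.sum_mul]
  exact Finset.sum_congr rfl h

lemma scal_coeff_zero (f : MvPolynomial (Fin 3) K) :
    (scal f).coeff 0 = C (constantCoeff f) := by
  have : ((Polynomial.constantCoeff : Polynomial (MvPolynomial (Fin 3) K) →+*
      MvPolynomial (Fin 3) K).comp (scal (K := K)).toRingHom) =
      (C : K →+* MvPolynomial (Fin 3) K).comp constantCoeff := by
    apply ringHom_ext
    · intro r
      simp [scal]
    · intro i
      simp [scal]
  exact RingHom.congr_fun this f

lemma scal_injective : Function.Injective (scal (K := K)) := by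
  intro a b h
  have : ((Polynomial.evalRingHom (1 : MvPolynomial (Fin 3) K)).comp
      (scal (K := K)).toRingHom) = RingHom.id _ := by
    apply ringHom_ext
    · intro r
      simp [scal]
    · intro i
      simp [scal]
  have ha := RingHom.congr_fun this a
  have hb := RingHom.congr_fun this b
  simp only [RingHom.coe_comp, Function.comp_apply, RingHom.id_apply] at ha hb
  rw [← ha, ← hb]
  congr 1

lemma trailing_eq {f : MvPolynomial (Fin 3) K} {n : ℕ} (hf : f.IsHomogeneous n) (h0 : f ≠ 0) :
    (scal f).natTrailingDegree = n := by
  rw [scal_hom hf]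
  rw [Polynomial.natTrailingDegree_mul (by simpa using h0) (pow_ne_zero _ Polynomial.X_ne_zero)]
  simp [Polynomial.natTrailingDegree_X_pow]

lemma trailing_mul {f g : MvPolynomial (Fin 3) K} (hf : f ≠ 0) (hg : g ≠ 0) :
    (scal (f * g)).natTrailingDegree =
      (scal f).natTrailingDegree + (scal g).natTrailingDegree := by
  rw [map_mul]
  apply Polynomial.natTrailingDegree_mul
  · intro h
    exact hf (scal_injective (by rw [h, map_zero]))
  · intro h
    exact hg (scal_injective (by rw [h, map_zero]))

lemma trailing_const {f : MvPolynomial (Fin 3) K} (hf : constantCoeff f ≠ 0) :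
    (scal f).natTrailingDegree = 0 := by
  apply Polynomial.natTrailingDegree_eq_zero.mpr
  right
  rw [scal_coeff_zero]
  simpa using hf

lemma det_cmat_hom (η : Fin 3 → Der K) (k : Fin 3 → ℕ)
    (h : ∀ i j, (η i (X j)).IsHomogeneous (k i)) :
    (cmat η).det.IsHomogeneous (∑ i, k i) := by
  rw [Matrix.det_apply]
  apply IsHomogeneous.sum
  intro σ _
  have h1 : (∏ i, cmat η (σ i) i).IsHomogeneous (∑ i, k (σ i)) := by
    apply IsHomogeneous.prod
    intro i _
    exact h (σ i) i
  rw [Equiv.sum_comp σ k] at h1
  rcases Int.units_eq_one_or (Equiv.Perm.sign σ) with hs | hs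
  · rw [hs]; simpa using h1
  · rw [hs]; simpa using h1.neg

end Pool.Agent.MP_8e3df5_co
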