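import Mathlib

/-!
Linear forms in three variables over a field: irreducibility, divisibility, and a degree bound for
polynomials divisible by powers of several pairwise non-proportional linear forms.
-/

set_option autoImplicit false

namespace Pool.Agent.MP_8e3df5_co

open MvPolynomial

variable {K : Type*} [Field K]

/-- The linear form with coefficient vector `v`. -/
noncomputable def lin (v : Fin 3 → K) : MvPolynomial (Fin 3) K := ∑ i : Fin 3, C (v i) * X i

lemma coeff_lin (v : Fin 3 → K) (i : Fin 3) :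
    coeff (Finsupp.single i 1) (lin v) = v i := by
  classical
  unfold lin
  rw [coeff_sum]
  rw [Finset.sum_eq_single i]
  · simp
  · intro j _ hj
    rw [coeff_C_mul, coeff_X, if_neg, mul_zero]
    rwa [Finsupp.single_left_inj Nat.one_ne_zero]
  · simp

lemma lin_isHomogeneous (v : Fin 3 → K) : (lin v).IsHomogeneous 1 := by
  unfold lin
  exact IsHomogeneous.sum _ _ _ (fun i _ => isHomogeneous_C_mul_X _ _)

lemma lin_injective {v w : Fin 3 → K} (h : lin v = lin w) : v = w := by
  funext i
  rw [← coeff_lin v i, h, coeff_lin]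

lemma lin_zero : lin (0 : Fin 3 → K) = 0 := by simp [lin]

lemma lin_ne_zero {v : Fin 3 → K} (hv : v ≠ 0) : lin v ≠ 0 := by
  intro h
  apply hv
  apply lin_injective
  rw [h, lin_zero]

lemma lin_smul (c : K) (v : Fin 3 → K) : lin (c • v) = C c * lin v := by
  simp [lin, Finset.mul_sum, mul_assoc]

lemma eval_lin (x v : Fin 3 → K) : eval x (lin v) = ∑ i : Fin 3, v i * x i := by
  simp [lin]

lemma der_lin (θ : Derivation K (MvPolynomial (Fin 3) K) (MvPolynomial (Fin 3) K))
    (v : Fin 3 → K) : θ (lin v) = ∑ i : Fin 3, C (v i) * θ (X i) := by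
  simp [lin]

lemma lin_totalDegree {v : Fin 3 → K} (hv : v ≠ 0) : (lin v).totalDegree = 1 :=
  (lin_isHomogeneous v).totalDegree (lin_ne_zero hv)

lemma lin_irreducible {v : Fin 3 → K} (hv : v ≠ 0) : Irreducible (lin v) := by
  apply irreducible_of_totalDegree_eq_one (lin_totalDegree hv)
  intro x hx
  obtain ⟨i, hi⟩ := Function.ne_iff.mp hv
  have := hx (Finsupp.single i 1)
  rw [coeff_lin] at this
  apply isUnit_iff_ne_zero.mpr
  rintro rfl
  rw [zero_dvd_iff] at this
  exact hi this

lemma lin_prime {v : Fin 3 → K} (hv : v ≠ 0) : Prime (lin v) :=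
  (lin_irreducible hv).prime

lemma lin_dvd_lin {v w : Fin 3 → K} (hv : v ≠ 0) (h : lin v ∣ lin w) : ∃ c : K, w = c • v := by
  obtain ⟨g, hg⟩ := h
  by_cases hw : w = 0
  · exact ⟨0, by simp [hw]⟩
  have hg0 : g ≠ 0 := by
    rintro rfl
    rw [mul_zero] at hg
    exact lin_ne_zero hw hg
  have hdeg := congrArg totalDegree hg
  rw [totalDegree_mul_of_isDomain (lin_ne_zero hv) hg0, lin_totalDegree hv,
    lin_totalDegree hw] at hdeg
  have : g.totalDegree = 0 := by omega
  rw [totalDegree_eq_zero_iff_eq_C] at this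
  refine ⟨coeff 0 g, ?_⟩
  apply lin_injective
  rw [lin_smul, ← this, mul_comm]
  exact hg

lemma lin_relPrime {v w : Fin 3 → K} (hv : v ≠ 0) (h : ∀ c : K, w ≠ c • v) :
    IsRelPrime (lin v) (lin w) := by
  rw [(lin_irreducible hv).isRelPrime_iff_not_dvd]
  intro hd
  obtain ⟨c, hc⟩ := lin_dvd_lin hv hd
  exact h c hc

/-- Degree bound: a nonzero polynomial divisible by powers of pairwise relatively prime linear
forms has degree at least the sum of the exponents. -/
lemma sum_le_totalDegree {ι : Type*} (s : Finset ι) (v : ι → Fin 3 → K) (m : ι → ℕ)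
    (hv : ∀ i ∈ s, v i ≠ 0)
    (hrel : ∀ i ∈ s, ∀ j ∈ s, i ≠ j → IsRelPrime (lin (v i)) (lin (v j)))
    {f : MvPolynomial (Fin 3) K} (hf : f ≠ 0) (hd : ∀ i ∈ s, (lin (v i)) ^ (m i) ∣ f) :
    ∑ i ∈ s, m i ≤ f.totalDegree := by
  classical
  have h1 : (∏ i ∈ s, (lin (v i)) ^ (m i)) ∣ f := by
    apply Finset.prod_dvd_of_isRelPrime _ hd
    intro i hi j hj hij
    exact IsRelPrime.pow (hrel i hi j hj hij)
  obtain ⟨g, hg⟩ := h1
  have hg0 : g ≠ 0 := by rintro rfl; rw [mul_zero] at hg; exact hf hg
  have hhom : (∏ i ∈ s, (lin (v i)) ^ (m i)).IsHomogeneous (∑ i ∈ s, m i) := by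
    apply IsHomogeneous.prod
    intro i _
    have := (lin_isHomogeneous (v i)).pow (m i)
    rwa [one_mul] at this
  have hne : (∏ i ∈ s, (lin (v i)) ^ (m i)) ≠ 0 := by
    rw [Finset.prod_ne_zero_iff]
    intro i hi
    exact pow_ne_zero _ (lin_ne_zero (hv i hi))
  rw [hg, totalDegree_mul_of_isDomain hne hg0, hhom.totalDegree hne]
  omega

/-- If `lin v` divides `f`, it divides each homogeneous component of `f`. -/
lemma dvd_homogeneousComponent {p f : MvPolynomial (Fin 3) K} {d : ℕ} (hp : p.IsHomogeneous d)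
    (h : p ∣ f) (n : ℕ) : p ∣ homogeneousComponent n f := by
  classical
  obtain ⟨g, rfl⟩ := h
  have : homogeneousComponent n (p * g) = ∑ i ∈ Finset.range (g.totalDegree + 1),
      homogeneousComponent n (p * homogeneousComponent i g) := by
    conv_lhs => rw [← sum_homogeneousComponent g, Finset.mul_sum, map_sum]
  rw [this]
  apply Finset.dvd_sum
  intro i _
  have hm : (p * homogeneousComponent i g) ∈ homogeneousSubmodule (Fin 3) K (d + i) :=
    hp.mul (homogeneousComponent_isHomogeneous i g)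
  rw [homogeneousComponent_of_mem hm]
  split_ifs
  · exact Dvd.intro _ rfl
  · exact dvd_zero _

end Pool.Agent.MP_8e3df5_co
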