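import Pool.Agent.H.MP_8e3df5_co.Arr

/-!
Restriction of logarithmic derivations to lines: low degree derivations are multiples of the Euler
derivation, and derivations of moderate degree are tangent to an additional line.
-/

set_option autoImplicit false

namespace Pool.Agent.MP_8e3df5_co

open MvPolynomial

variable {K : Type*} [Field K]

lemma lin_vec (p q r : K) : lin ![p, q, r] = C p * X 0 + C q * X 1 + C r * X 2 := by
  simp [lin, Fin.sum_univ_three]

/-- Substitution eliminating the first variable. -/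
noncomputable def rho (a b : K) : MvPolynomial (Fin 3) K →ₐ[K] MvPolynomial (Fin 3) K :=
  aeval ![-(C a * X 1 + C b * X 2), X 1, X 2]

lemma rho_X0 (a b : K) : rho a b (X 0) = -(C a * X 1 + C b * X 2) := by simp [rho]
lemma rho_X1 (a b : K) : rho a b (X 1) = X 1 := by simp [rho]
lemma rho_X2 (a b : K) : rho a b (X 2) = X 2 := by simp [rho]
lemma rho_C (a b c : K) : rho a b (C c) = C c := by
  rw [← algebraMap_eq, AlgHom.commutes]

lemma dvd_sub_rho (a b : K) (f : MvPolynomial (Fin 3) K) :
    lin ![1, a, b] ∣ f - rho a b f := by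
  induction f using MvPolynomial.induction_on with
  | C c => rw [rho_C, sub_self]; exact dvd_zero _
  | add p q hp hq =>
    rw [map_add]
    have : p + q - (rho a b p + rho a b q) = (p - rho a b p) + (q - rho a b q) := by ring
    rw [this]
    exact dvd_add hp hq
  | mul_X p i hp =>
    rw [map_mul]
    have : p * X i - rho a b p * rho a b (X i) =
        (p - rho a b p) * X i + rho a b p * (X i - rho a b (X i)) := by ring
    rw [this]
    apply dvd_add (Dvd.dvd.mul_right hp _)
    apply Dvd.dvd.mul_left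
    fin_cases i
    · show lin ![1, a, b] ∣ X 0 - rho a b (X 0)
      rw [rho_X0, lin_vec, map_one]
      exact ⟨1, by ring⟩
    · show lin ![1, a, b] ∣ X 1 - rho a b (X 1)
      rw [rho_X1, sub_self]; exact dvd_zero _
    · show lin ![1, a, b] ∣ X 2 - rho a b (X 2)
      rw [rho_X2, sub_self]; exact dvd_zero _

lemma rho_lin (a b p q r : K) :
    rho a b (lin ![p, q, r]) = lin ![0, q - a * p, r - b * p] := by
  rw [lin_vec, lin_vec]
  simp only [map_add, map_mul, rho_X0, rho_X1, rho_X2, rho_C, map_sub, map_zero]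
  ring

lemma rho_hom (a b : K) {f : MvPolynomial (Fin 3) K} {n : ℕ} (hf : f.IsHomogeneous n) :
    (rho a b f).IsHomogeneous n := by
  have h := hf.aeval (![-(C a * X 1 + C b * X 2), X 1, X 2] :
    Fin 3 → MvPolynomial (Fin 3) K) (n := 1) (by
    intro i
    fin_cases i
    · exact ((isHomogeneous_C_mul_X a 1).add (isHomogeneous_C_mul_X b 2)).neg
    · exact isHomogeneous_X _ _
    · exact isHomogeneous_X _ _)
  rw [one_mul] at h
  unfold rho
  exact h

/-- The minor of a derivation and the Euler derivation. -/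
noncomputable def minor (θ : Der K) : MvPolynomial (Fin 3) K :=
  X 1 * θ (X 2) - X 2 * θ (X 1)

lemma der_vec (θ : Der K) (p q r : K) :
    θ (lin ![p, q, r]) = C p * θ (X 0) + C q * θ (X 1) + C r * θ (X 2) := by
  rw [der_lin, Fin.sum_univ_three]
  rfl

lemma minor_step (θ : Der K) (a b p q r : K) (h1 : lin ![1, a, b] ∣ θ (lin ![1, a, b]))
    (h2 : lin ![p, q, r] ∣ θ (lin ![p, q, r]))
    (hne : q - a * p ≠ 0 ∨ r - b * p ≠ 0) :
    lin ![0, q - a * p, r - b * p] ∣ rho a b (minor θ) := by
  set c := q - a * p with hc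
  set d := r - b * p with hd
  have e1 : rho a b (θ (X 0)) = -(C a * rho a b (θ (X 1)) + C b * rho a b (θ (X 2))) := by
    obtain ⟨g, hg⟩ := h1
    have := congrArg (rho a b) hg
    rw [map_mul, rho_lin, der_vec] at this
    simp only [map_add, map_mul, rho_C, map_one, one_mul, mul_one, sub_self] at this
    have hz : lin ![(0 : K), 0, 0] = 0 := by
      rw [lin_vec]; simp
    rw [hz, zero_mul] at this
    linear_combination this
  have e2 : lin ![0, c, d] ∣ C c * rho a b (θ (X 1)) + C d * rho a b (θ (X 2)) := by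
    obtain ⟨g, hg⟩ := h2
    have := congrArg (rho a b) hg
    rw [map_mul, rho_lin, der_vec] at this
    simp only [map_add, map_mul, rho_C] at this
    rw [e1] at this
    refine ⟨rho a b g, ?_⟩
    rw [← hc, ← hd] at this
    rw [← this, hc, hd]
    simp only [map_sub, map_mul]
    ring
  have hM : rho a b (minor θ) = X 1 * rho a b (θ (X 2)) - X 2 * rho a b (θ (X 1)) := by
    unfold minor
    rw [map_sub, map_mul, map_mul, rho_X1, rho_X2]
  rw [hM]
  have hl : lin ![0, c, d] = C c * X 1 + C d * X 2 := by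
    rw [lin_vec]; simp
  rcases hne with h | h
  · have hu : IsUnit (C c : MvPolynomial (Fin 3) K) := (isUnit_iff_ne_zero.mpr h).map C
    rw [← hu.dvd_mul_left]
    have : C c * (X 1 * rho a b (θ (X 2)) - X 2 * rho a b (θ (X 1))) =
        lin ![0, c, d] * rho a b (θ (X 2)) -
          X 2 * (C c * rho a b (θ (X 1)) + C d * rho a b (θ (X 2))) := by
      rw [hl]; ring
    rw [this]
    exact dvd_sub (Dvd.intro _ rfl) (Dvd.dvd.mul_left e2 _)
  · have hu : IsUnit (C d : MvPolynomial (Fin 3) K) := (isUnit_iff_ne_zero.mpr h).map C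
    rw [← hu.dvd_mul_left]
    have : C d * (X 1 * rho a b (θ (X 2)) - X 2 * rho a b (θ (X 1))) =
        X 1 * (C c * rho a b (θ (X 1)) + C d * rho a b (θ (X 2))) -
          lin ![0, c, d] * rho a b (θ (X 1)) := by
      rw [hl]; ring
    rw [this]
    exact dvd_sub (Dvd.dvd.mul_left e2 _) (Dvd.intro _ rfl)

/-- A polynomial of small degree vanishing on many lines is zero: the minor vanishes on a line
which carries more intersection points than the degree of the minor. -/
lemma minor_line (θ : Der K) (k : ℕ) (hhom : ∀ i, (θ (X i)).IsHomogeneous k) (a b : K)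
    (h1 : lin ![1, a, b] ∣ θ (lin ![1, a, b])) {ι : Type*} (s : Finset ι) (P : ι → Fin 3 → K)
    (hP : ∀ i ∈ s, lin (P i) ∣ θ (lin (P i)))
    (hdir : ∀ i ∈ s, ∀ j ∈ s, i ≠ j →
      (P i 1 - a * P i 0) * (P j 2 - b * P j 0) ≠ (P j 1 - a * P j 0) * (P i 2 - b * P i 0))
    (hne : ∀ i ∈ s, P i 1 - a * P i 0 ≠ 0 ∨ P i 2 - b * P i 0 ≠ 0)
    (hcard : k + 1 < s.card) : lin ![1, a, b] ∣ minor θ := by
  have hvec : ∀ v : Fin 3 → K, v = ![v 0, v 1, v 2] := by
    intro v; funext i; fin_cases i <;> rfl
  have hz : rho a b (minor θ) = 0 := by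
    by_contra hne0
    have hh : (minor θ).IsHomogeneous (1 + k) :=
      ((isHomogeneous_X K 1).mul (hhom 2)).sub ((isHomogeneous_X K 2).mul (hhom 1))
    have htd := (rho_hom a b hh).totalDegree_le
    have hlow := sum_le_totalDegree s
      (fun i => ![0, P i 1 - a * P i 0, P i 2 - b * P i 0]) (fun _ => 1)
      (by
        intro i hi h0
        have h01 := congrFun h0 1
        have h02 := congrFun h0 2
        simp at h01 h02
        rcases hne i hi with h | h
        · exact h h01
        · exact h h02)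
      (by
        intro i hi j hj hij
        apply lin_relPrime
        · intro h0
          have h01 := congrFun h0 1
          have h02 := congrFun h0 2
          simp at h01 h02
          rcases hne i hi with h | h
          · exact h h01
          · exact h h02
        · intro c hc
          have h01 := congrFun hc 1
          have h02 := congrFun hc 2
          simp only [Matrix.cons_val_one, Matrix.cons_val_zero, Pi.smul_apply, smul_eq_mul,
            Matrix.cons_val] at h01 h02
          apply hdir i hi j hj hij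
          rw [h01, h02]
          ring)
      hne0
      (by
        intro i hi
        rw [pow_one]
        apply minor_step θ a b (P i 0) (P i 1) (P i 2) h1 _ (hne i hi)
        rw [← hvec (P i)]
        exact hP i hi)
    rw [Finset.sum_const, smul_eq_mul, mul_one] at hlow
    omega
  have h := dvd_sub_rho a b (minor θ)
  rwa [hz, sub_zero] at h

lemma lin_one_ne_zero (c d : K) : (![1, c, d] : Fin 3 → K) ≠ 0 := by
  intro h
  have := congrFun h 0
  simp at this

lemma rel_one {c d c' d' : K} (h : (c, d) ≠ (c', d')) :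
    IsRelPrime (lin ![1, c, d]) (lin ![1, c', d']) := by
  apply lin_relPrime (lin_one_ne_zero c d)
  intro t ht
  apply h
  have h0 := congrFun ht 0
  have h1 := congrFun ht 1
  have h2 := congrFun ht 2
  simp only [Matrix.cons_val_one, Matrix.cons_val_zero, Pi.smul_apply, smul_eq_mul,
            Matrix.cons_val] at h0 h1 h2
  have ht1 : t = 1 := by linear_combination -h0
  rw [h1, h2, ht1, one_mul, one_mul]

/-- If the minor is divisible by sufficiently many linear forms, the derivation is a multiple of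
the Euler derivation. -/
lemma euler_of_lines (θ : Der K) (k : ℕ) (hhom : ∀ i, (θ (X i)).IsHomogeneous k)
    (s : Finset (K × K)) (hs : ∀ e ∈ s, lin ![1, e.1, e.2] ∣ θ (lin ![1, e.1, e.2]))
    (hm : ∀ e ∈ s, lin ![1, e.1, e.2] ∣ minor θ) (hcard : k + 1 < s.card) :
    ∃ g, ∀ i, θ (X i) = g * X i := by
  have key : ∀ f : MvPolynomial (Fin 3) K, f.totalDegree ≤ k + 1 →
      (∀ e ∈ s, lin ![1, e.1, e.2] ∣ f) → f = 0 := by
    intro f hf hd
    by_contra hne
    have := sum_le_totalDegree s (fun e => ![1, e.1, e.2]) (fun _ => 1)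
      (fun e _ => lin_one_ne_zero _ _)
      (fun e _ e' _ hne => rel_one (by simpa [Prod.ext_iff] using hne))
      hne (fun e he => by rw [pow_one]; exact hd e he)
    rw [Finset.sum_const, smul_eq_mul, mul_one] at this
    omega
  have hh : (minor θ).IsHomogeneous (1 + k) :=
    ((isHomogeneous_X K 1).mul (hhom 2)).sub ((isHomogeneous_X K 2).mul (hhom 1))
  have hmin : minor θ = 0 := by
    apply key _ _ hm
    have := hh.totalDegree_le
    omega
  have hX : (X 1 : MvPolynomial (Fin 3) K) ∣ θ (X 1) := by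
    have h1 : (X 1 : MvPolynomial (Fin 3) K) ∣ X 2 * θ (X 1) := by
      refine ⟨θ (X 2), ?_⟩
      unfold minor at hmin
      linear_combination -hmin
    rcases (X_prime (R := K) (i := (1 : Fin 3))).dvd_or_dvd h1 with h | h
    · rw [X_dvd_X] at h
      exact absurd h (by decide)
    · exact h
  obtain ⟨g, hg⟩ := hX
  have h2 : θ (X 2) = X 2 * g := by
    have hx : (X 1 : MvPolynomial (Fin 3) K) ≠ 0 := X_ne_zero 1
    apply mul_left_cancel₀ hx
    unfold minor at hmin
    rw [hg] at hmin
    linear_combination hmin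
  have h0 : θ (X 0) - g * X 0 = 0 := by
    apply key
    · refine (totalDegree_sub _ _).trans ?_
      apply max_le
      · exact ((hhom 0).totalDegree_le).trans (Nat.le_succ k)
      · by_cases hg0 : g = 0
        · rw [hg0]; simp
        · have h3 := (hhom 1).totalDegree_le
          rw [hg, totalDegree_mul_of_isDomain (X_ne_zero 1) hg0, totalDegree_X] at h3
          rw [totalDegree_mul_of_isDomain hg0 (X_ne_zero 0), totalDegree_X]
          omega
    · intro e he
      have h3 := hs e he
      rw [der_vec, hg, h2] at h3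
      have h4 : C 1 * θ (X 0) + C e.1 * (X 1 * g) + C e.2 * (X 2 * g) =
          (θ (X 0) - g * X 0) + lin ![1, e.1, e.2] * g := by
        rw [lin_vec, map_one]; ring
      rw [h4] at h3
      exact (dvd_add_left (Dvd.intro _ rfl)).mp h3
  refine ⟨g, ?_⟩
  intro i
  fin_cases i
  · show θ (X 0) = g * X 0
    linear_combination h0
  · show θ (X 1) = g * X 1
    rw [hg, mul_comm]
  · show θ (X 2) = g * X 2
    rw [h2, mul_comm]

/-- Substitution of zero for the second variable. -/
noncomputable def pi1 : MvPolynomial (Fin 3) K →ₐ[K] MvPolynomial (Fin 3) K :=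
  aeval ![X 0, 0, X 2]

lemma pi1_X0 : pi1 (K := K) (X 0) = X 0 := by simp [pi1]
lemma pi1_X1 : pi1 (K := K) (X 1) = 0 := by simp [pi1]
lemma pi1_X2 : pi1 (K := K) (X 2) = X 2 := by simp [pi1]
lemma pi1_C (c : K) : pi1 (C c) = C c := by
  rw [← algebraMap_eq, AlgHom.commutes]

lemma dvd_sub_pi1 (f : MvPolynomial (Fin 3) K) : X 1 ∣ f - pi1 f := by
  induction f using MvPolynomial.induction_on with
  | C c => rw [pi1_C, sub_self]; exact dvd_zero _
  | add p q hp hq =>
    rw [map_add]
    have : p + q - (pi1 p + pi1 q) = (p - pi1 p) + (q - pi1 q) := by ring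
    rw [this]
    exact dvd_add hp hq
  | mul_X p i hp =>
    rw [map_mul]
    have : p * X i - pi1 p * pi1 (X i) =
        (p - pi1 p) * X i + pi1 p * (X i - pi1 (X i)) := by ring
    rw [this]
    apply dvd_add (Dvd.dvd.mul_right hp _)
    apply Dvd.dvd.mul_left
    fin_cases i
    · show X 1 ∣ X 0 - pi1 (X 0)
      rw [pi1_X0, sub_self]; exact dvd_zero _
    · show X 1 ∣ X 1 - pi1 (X 1)
      rw [pi1_X1, sub_zero]
    · show X 1 ∣ X 2 - pi1 (X 2)
      rw [pi1_X2, sub_self]; exact dvd_zero _

lemma pi1_hom {f : MvPolynomial (Fin 3) K} {n : ℕ} (hf : f.IsHomogeneous n) :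
    (pi1 f).IsHomogeneous n := by
  have h := hf.aeval (![X 0, 0, X 2] :
    Fin 3 → MvPolynomial (Fin 3) K) (n := 1) (by
    intro i
    fin_cases i
    · exact isHomogeneous_X _ _
    · exact isHomogeneous_zero _ _ _
    · exact isHomogeneous_X _ _)
  rw [one_mul] at h
  unfold pi1
  exact h

lemma pi1_lin (c d : K) : pi1 (lin ![1, c, d]) = lin ![1, 0, d] := by
  rw [lin_vec, lin_vec]
  simp only [map_add, map_mul, pi1_X0, pi1_X1, pi1_X2, pi1_C, map_zero]
  ring

/-- Order of tangency along the second coordinate line at a point of high multiplicity. -/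
lemma mid_step (θ : Der K) (d : K) (cs : Finset K) (m : ℕ) (hcs : cs.card = m + 1)
    (h : ∀ c ∈ cs, lin ![1, c, d] ∣ θ (lin ![1, c, d])) :
    (lin ![1, 0, d]) ^ m ∣ pi1 (θ (X 1)) := by
  set P := X 1 * (θ (X 0) + C d * θ (X 2)) - (X 0 + C d * X 2) * θ (X 1) with hPdef
  have hP : (∏ c ∈ cs, lin ![1, c, d]) ∣ P := by
    apply Finset.prod_dvd_of_isRelPrime
    · intro c _ c' _ hne
      exact rel_one (by simpa [Prod.ext_iff] using hne)
    · intro c hc
      have h1 := h c hc
      rw [der_vec, map_one, one_mul] at h1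
      have h2 : P = X 1 * (θ (X 0) + C c * θ (X 1) + C d * θ (X 2)) -
          lin ![1, c, d] * θ (X 1) := by
        rw [hPdef, lin_vec, map_one]; ring
      rw [h2]
      exact dvd_sub (Dvd.dvd.mul_left h1 _) (Dvd.intro _ rfl)
  obtain ⟨g, hg⟩ := hP
  have h1 := congrArg pi1 hg
  rw [map_mul, map_prod] at h1
  simp only [pi1_lin, Finset.prod_const, hcs] at h1
  have h2 : pi1 P = -(lin ![1, 0, d] * pi1 (θ (X 1))) := by
    rw [hPdef, lin_vec]
    simp only [map_add, map_sub, map_mul, pi1_X0, pi1_X1, pi1_X2, pi1_C, map_zero, map_one]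
    ring
  rw [h2] at h1
  have hl0 : lin ![1, 0, d] ≠ 0 := lin_ne_zero (lin_one_ne_zero 0 d)
  refine ⟨-pi1 g, ?_⟩
  apply mul_left_cancel₀ hl0
  rw [pow_succ] at h1
  linear_combination -h1

/-- A derivation of small degree is tangent to the second coordinate line. -/
lemma mid_of (θ : Der K) (k : ℕ) (hhom : ∀ i, (θ (X i)).IsHomogeneous k)
    (ds : Finset K) (cs : K → Finset K) (m : K → ℕ) (hcs : ∀ d ∈ ds, (cs d).card = m d + 1)
    (h : ∀ d ∈ ds, ∀ c ∈ cs d, lin ![1, c, d] ∣ θ (lin ![1, c, d]))
    (hk : k < ∑ d ∈ ds, m d) : X 1 ∣ θ (X 1) := by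
  have hz : pi1 (θ (X 1)) = 0 := by
    by_contra hne
    have h1 := sum_le_totalDegree ds (fun d => ![1, 0, d]) m
      (fun d _ => lin_one_ne_zero _ _)
      (fun d _ d' _ hne => rel_one (by simpa [Prod.ext_iff] using hne))
      hne (fun d hd => mid_step θ d (cs d) (m d) (hcs d hd) (h d hd))
    have h2 := (pi1_hom (hhom 1)).totalDegree_le
    omega
  have h3 := dvd_sub_pi1 (θ (X 1))
  rwa [hz, sub_zero] at h3

end Pool.Agent.MP_8e3df5_co
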