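import Pool.Agent.H.MP_8e3df5_co.Conf

/-!
The arrangement of 22 lines has no double points.
-/

set_option autoImplicit false

namespace Pool.Agent.MP_8e3df5_co

open MvPolynomial

variable {K : Type*} [Field K] [CharZero K] [DecidableEq K]
variable (w i : K) (hw : w ^ 2 + w + 1 = 0) (hi : i ^ 2 = -1)

omit [CharZero K] in
lemma M3_rel {w : K} (hw : w ^ 2 + w + 1 = 0) {a b : K} (ha : a ∈ M3 w) (hb : b ∈ M3 w) :
    b = a ∨ b = w * a ∨ b = w ^ 2 * a := by
  simp only [M3, Finset.mem_insert, Finset.mem_singleton] at ha hb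
  rcases ha with ha | ha | ha <;> rcases hb with hb | hb | hb <;> subst ha <;> subst hb <;>
    grind

omit [CharZero K] in
lemma M4_rel {i : K} (hi : i ^ 2 = -1) {a b : K} (ha : a ∈ M4 i) (hb : b ∈ M4 i) :
    b = a ∨ b = i * a ∨ b = -a ∨ b = -(i * a) := by
  simp only [M4, Finset.mem_insert, Finset.mem_singleton] at ha hb
  rcases ha with ha | ha | ha | ha <;> rcases hb with hb | hb | hb | hb <;>
    subst ha <;> subst hb <;> grind

/-- Incidence. -/
def inc (x : Fin 3 → K) (e : K × K) : Prop := x 0 + e.1 * x 1 + e.2 * x 2 = 0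

/-- There is a third line. -/
def Third (x : Fin 3 → K) (e f : K × K) : Prop :=
  ∃ g ∈ EE w i, g ≠ e ∧ g ≠ f ∧ inc x g

omit [CharZero K] in
lemma Third.symm {x : Fin 3 → K} {e f : K × K} (h : Third w i x e f) : Third w i x f e := by
  obtain ⟨g, hg, h1, h2, h3⟩ := h
  exact ⟨g, hg, h2, h1, h3⟩

section
variable (x : Fin 3 → K)

include hw in
omit [CharZero K] in
lemma clos3 {a : K} (ha : a ∈ M3 w) : w * a ∈ M3 w ∧ w ^ 2 * a ∈ M3 w := by
  have h1 := M3_mul w hw ha
  have h2 := M3_mul w hw h1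
  refine ⟨h1, ?_⟩
  have : w ^ 2 * a = w * (w * a) := by ring
  rwa [this]

include hi in
omit [CharZero K] in
lemma clos4 {b : K} (hb : b ∈ M4 i) : i * b ∈ M4 i ∧ -b ∈ M4 i ∧ -(i * b) ∈ M4 i := by
  have h1 := M4_mul i hi hb
  have h2 := M4_mul i hi h1
  have h3 := M4_mul i hi h2
  refine ⟨h1, ?_, ?_⟩
  · have : -b = i * (i * b) := by linear_combination (-b) * hi
    rwa [this]
  · have : -(i * b) = i * (i * (i * b)) := by linear_combination (-(i * b)) * hi
    rwa [this]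

include hw hi in
lemma third_GG {a b a' b' : K} (ha : a ∈ M3 w) (hb : b ∈ M4 i) (ha' : a' ∈ M3 w)
    (hb' : b' ∈ M4 i) (hne : (a, b) ≠ (a', b')) (h1 : inc x (a, b)) (h2 : inc x (a', b')) :
    Third w i x (a, b) (a', b') := by
  have hs : sq3 w i = -i * (2 * w + 1) := rfl
  have ha0 := M3_ne_zero w hw ha
  have hb0 := M4_ne_zero i hi hb
  obtain ⟨cwa, cwwa⟩ := clos3 w hw ha
  obtain ⟨cib, cnb, cnib⟩ := clos4 i hi hb
  simp only [inc] at h1 h2
  rcases M3_rel hw ha ha' with h | h | h <;> rcases M4_rel hi hb hb' with g | g | g | g <;>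
    subst h <;> subst g
  · exact absurd rfl hne
  · refine ⟨(a', -b), EE_grid w i ha cnb, ?_, ?_, ?_⟩
    · simp only [ne_eq, Prod.mk.injEq, not_and]; intro _; grind
    · simp only [ne_eq, Prod.mk.injEq, not_and]; intro _; grind
    · simp only [inc]; grind
  · refine ⟨(a', i * b), EE_grid w i ha cib, ?_, ?_, ?_⟩
    · simp only [ne_eq, Prod.mk.injEq, not_and]; intro _; grind
    · simp only [ne_eq, Prod.mk.injEq, not_and]; intro _; grind
    · simp only [inc]; grind
  · refine ⟨(a', -b), EE_grid w i ha cnb, ?_, ?_, ?_⟩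
    · simp only [ne_eq, Prod.mk.injEq, not_and]; intro _; grind
    · simp only [ne_eq, Prod.mk.injEq, not_and]; intro _; grind
    · simp only [inc]; grind
  · refine ⟨(w ^ 2 * a, b'), EE_grid w i cwwa hb, ?_, ?_, ?_⟩
    · simp only [ne_eq, Prod.mk.injEq, not_and]; intro _; grind
    · simp only [ne_eq, Prod.mk.injEq, not_and]; intro _; grind
    · simp only [inc]; grind
  · refine ⟨_, EE_u w i cwwa, ?_, ?_, ?_⟩
    · simp only [ne_eq, Prod.mk.injEq, not_and]; intro _; grind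
    · simp only [ne_eq, Prod.mk.injEq, not_and]; intro _; grind
    · simp only [inc]; grind
  · refine ⟨_, EE_t w i cnib, ?_, ?_, ?_⟩
    · simp only [ne_eq, Prod.mk.injEq, not_and]; intro _; grind
    · simp only [ne_eq, Prod.mk.injEq, not_and]; intro _; grind
    · simp only [inc]; grind
  · refine ⟨_, EE_v w i cwwa, ?_, ?_, ?_⟩
    · simp only [ne_eq, Prod.mk.injEq, not_and]; intro _; grind
    · simp only [ne_eq, Prod.mk.injEq, not_and]; intro _; grind
    · simp only [inc]; grind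
  · refine ⟨(w * a, b'), EE_grid w i cwa hb, ?_, ?_, ?_⟩
    · simp only [ne_eq, Prod.mk.injEq, not_and]; intro _; grind
    · simp only [ne_eq, Prod.mk.injEq, not_and]; intro _; grind
    · simp only [inc]; grind
  · refine ⟨_, EE_v w i cwa, ?_, ?_, ?_⟩
    · simp only [ne_eq, Prod.mk.injEq, not_and]; intro _; grind
    · simp only [ne_eq, Prod.mk.injEq, not_and]; intro _; grind
    · simp only [inc]; grind
  · refine ⟨_, EE_t w i cib, ?_, ?_, ?_⟩
    · simp only [ne_eq, Prod.mk.injEq, not_and]; intro _; grind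
    · simp only [ne_eq, Prod.mk.injEq, not_and]; intro _; grind
    · simp only [inc]; grind
  · refine ⟨_, EE_u w i cwa, ?_, ?_, ?_⟩
    · simp only [ne_eq, Prod.mk.injEq, not_and]; intro _; grind
    · simp only [ne_eq, Prod.mk.injEq, not_and]; intro _; grind
    · simp only [inc]; grind

include hw hi in
lemma third_GU {a b a' : K} (ha : a ∈ M3 w) (hb : b ∈ M4 i) (ha' : a' ∈ M3 w)
    (h1 : inc x (a, b)) (h2 : inc x (a' * (sq3 w i - 1) / 2, 0)) :
    Third w i x (a, b) (a' * (sq3 w i - 1) / 2, 0) := by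
  have hs : sq3 w i = -i * (2 * w + 1) := rfl
  have ha0 := M3_ne_zero w hw ha
  have hb0 := M4_ne_zero i hi hb
  obtain ⟨cwa, cwwa⟩ := clos3 w hw ha
  obtain ⟨cib, cnb, cnib⟩ := clos4 i hi hb
  simp only [inc] at h1 h2
  rcases M3_rel hw ha ha' with h | h | h <;> subst h
  · refine ⟨_, EE_t w i cnb, ?_, ?_, ?_⟩
    · simp only [ne_eq, Prod.mk.injEq, not_and]; intro _; grind
    · simp only [ne_eq, Prod.mk.injEq, not_and]; intro _; grind
    · simp only [inc]; grind
  · refine ⟨(w ^ 2 * a, -(i * b)), EE_grid w i cwwa cnib, ?_, ?_, ?_⟩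
    · simp only [ne_eq, Prod.mk.injEq, not_and]; intro _; grind
    · simp only [ne_eq, Prod.mk.injEq, not_and]; intro _; grind
    · simp only [inc]; grind
  · refine ⟨(w * a, i * b), EE_grid w i cwa cib, ?_, ?_, ?_⟩
    · simp only [ne_eq, Prod.mk.injEq, not_and]; intro _; grind
    · simp only [ne_eq, Prod.mk.injEq, not_and]; intro _; grind
    · simp only [inc]; grind

include hw hi in
lemma third_GV {a b a' : K} (ha : a ∈ M3 w) (hb : b ∈ M4 i) (ha' : a' ∈ M3 w)
    (h1 : inc x (a, b)) (h2 : inc x (-a' * (sq3 w i + 1) / 2, 0)) :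
    Third w i x (a, b) (-a' * (sq3 w i + 1) / 2, 0) := by
  have hs : sq3 w i = -i * (2 * w + 1) := rfl
  have ha0 := M3_ne_zero w hw ha
  have hb0 := M4_ne_zero i hi hb
  obtain ⟨cwa, cwwa⟩ := clos3 w hw ha
  obtain ⟨cib, cnb, cnib⟩ := clos4 i hi hb
  simp only [inc] at h1 h2
  rcases M3_rel hw ha ha' with h | h | h <;> subst h
  · refine ⟨_, EE_t w i hb, ?_, ?_, ?_⟩
    · simp only [ne_eq, Prod.mk.injEq, not_and]; intro _; grind
    · simp only [ne_eq, Prod.mk.injEq, not_and]; intro _; grind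
    · simp only [inc]; grind
  · refine ⟨(w ^ 2 * a, i * b), EE_grid w i cwwa cib, ?_, ?_, ?_⟩
    · simp only [ne_eq, Prod.mk.injEq, not_and]; intro _; grind
    · simp only [ne_eq, Prod.mk.injEq, not_and]; intro _; grind
    · simp only [inc]; grind
  · refine ⟨(w * a, -(i * b)), EE_grid w i cwa cnib, ?_, ?_, ?_⟩
    · simp only [ne_eq, Prod.mk.injEq, not_and]; intro _; grind
    · simp only [ne_eq, Prod.mk.injEq, not_and]; intro _; grind
    · simp only [inc]; grind

include hw hi in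
lemma third_GT {a b b' : K} (ha : a ∈ M3 w) (hb : b ∈ M4 i) (hb' : b' ∈ M4 i)
    (h1 : inc x (a, b)) (h2 : inc x (0, b' * sq3 w i / 3)) :
    Third w i x (a, b) (0, b' * sq3 w i / 3) := by
  have hs : sq3 w i = -i * (2 * w + 1) := rfl
  have ha0 := M3_ne_zero w hw ha
  have hb0 := M4_ne_zero i hi hb
  obtain ⟨cwa, cwwa⟩ := clos3 w hw ha
  obtain ⟨cib, cnb, cnib⟩ := clos4 i hi hb
  simp only [inc] at h1 h2
  rcases M4_rel hi hb hb' with h | h | h | h <;> subst h
  · refine ⟨_, EE_v w i ha, ?_, ?_, ?_⟩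
    · simp only [ne_eq, Prod.mk.injEq, not_and]; intro _; grind
    · simp only [ne_eq, Prod.mk.injEq, not_and]; intro _; grind
    · simp only [inc]; grind
  · refine ⟨(w ^ 2 * a, -b), EE_grid w i cwwa cnb, ?_, ?_, ?_⟩
    · simp only [ne_eq, Prod.mk.injEq, not_and]; intro _; grind
    · simp only [ne_eq, Prod.mk.injEq, not_and]; intro _; grind
    · simp only [inc]; grind
  · refine ⟨_, EE_u w i ha, ?_, ?_, ?_⟩
    · simp only [ne_eq, Prod.mk.injEq, not_and]; intro _; grind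
    · simp only [ne_eq, Prod.mk.injEq, not_and]; intro _; grind
    · simp only [inc]; grind
  · refine ⟨(w * a, -b), EE_grid w i cwa cnb, ?_, ?_, ?_⟩
    · simp only [ne_eq, Prod.mk.injEq, not_and]; intro _; grind
    · simp only [ne_eq, Prod.mk.injEq, not_and]; intro _; grind
    · simp only [inc]; grind

include hw hi in
lemma third_UU {a a' : K} (ha : a ∈ M3 w) (ha' : a' ∈ M3 w)
    (hne : ((a * (sq3 w i - 1) / 2, 0) : K × K) ≠ (a' * (sq3 w i - 1) / 2, 0))
    (h1 : inc x (a * (sq3 w i - 1) / 2, 0)) (h2 : inc x (a' * (sq3 w i - 1) / 2, 0)) :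
    Third w i x (a * (sq3 w i - 1) / 2, 0) (a' * (sq3 w i - 1) / 2, 0) := by
  have hs : sq3 w i = -i * (2 * w + 1) := rfl
  have ha0 := M3_ne_zero w hw ha
  have ha0' := M3_ne_zero w hw ha'
  simp only [inc] at h1 h2
  have hx : (a - a') * x 1 = 0 := by grind
  have haa : a - a' ≠ 0 := by
    intro h
    apply hne
    have : a = a' := by linear_combination h
    rw [this]
  have hx1 : x 1 = 0 := by
    rcases mul_eq_zero.mp hx with h | h
    · exact absurd h haa
    · exact h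
  refine ⟨_, EE_v w i ha, ?_, ?_, ?_⟩
  · simp only [ne_eq, Prod.mk.injEq, not_and]; intro _; grind
  · simp only [ne_eq, Prod.mk.injEq, not_and]
    rcases M3_rel hw ha ha' with h | h | h <;> subst h <;> intro _ <;> grind
  · simp only [inc]; grind

include hw hi in
lemma third_VV {a a' : K} (ha : a ∈ M3 w) (ha' : a' ∈ M3 w)
    (hne : ((-a * (sq3 w i + 1) / 2, 0) : K × K) ≠ (-a' * (sq3 w i + 1) / 2, 0))
    (h1 : inc x (-a * (sq3 w i + 1) / 2, 0)) (h2 : inc x (-a' * (sq3 w i + 1) / 2, 0)) :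
    Third w i x (-a * (sq3 w i + 1) / 2, 0) (-a' * (sq3 w i + 1) / 2, 0) := by
  have hs : sq3 w i = -i * (2 * w + 1) := rfl
  have ha0 := M3_ne_zero w hw ha
  have ha0' := M3_ne_zero w hw ha'
  simp only [inc] at h1 h2
  have hx : (a - a') * x 1 = 0 := by grind
  have haa : a - a' ≠ 0 := by
    intro h
    apply hne
    have : a = a' := by linear_combination h
    rw [this]
  have hx1 : x 1 = 0 := by
    rcases mul_eq_zero.mp hx with h | h
    · exact absurd h haa
    · exact h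
  refine ⟨_, EE_u w i ha, ?_, ?_, ?_⟩
  · simp only [ne_eq, Prod.mk.injEq, not_and]; intro _; grind
  · simp only [ne_eq, Prod.mk.injEq, not_and]
    rcases M3_rel hw ha ha' with h | h | h <;> subst h <;> intro _ <;> grind
  · simp only [inc]; grind

include hw hi in
lemma third_UV {a a' : K} (ha : a ∈ M3 w) (ha' : a' ∈ M3 w)
    (h1 : inc x (a * (sq3 w i - 1) / 2, 0)) (h2 : inc x (-a' * (sq3 w i + 1) / 2, 0)) :
    Third w i x (a * (sq3 w i - 1) / 2, 0) (-a' * (sq3 w i + 1) / 2, 0) := by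
  have hs : sq3 w i = -i * (2 * w + 1) := rfl
  have ha0 := M3_ne_zero w hw ha
  have ha0' := M3_ne_zero w hw ha'
  obtain ⟨cwa, cwwa⟩ := clos3 w hw ha
  simp only [inc] at h1 h2
  have hx1 : x 1 = 0 := by
    rcases M3_rel hw ha ha' with h | h | h <;> subst h <;> grind
  refine ⟨_, EE_u w i cwa, ?_, ?_, ?_⟩
  · simp only [ne_eq, Prod.mk.injEq, not_and]; intro _; grind
  · simp only [ne_eq, Prod.mk.injEq, not_and]
    rcases M3_rel hw ha ha' with h | h | h <;> subst h <;> intro _ <;> grind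
  · simp only [inc]; grind

include hw hi in
lemma third_TT {b b' : K} (hb : b ∈ M4 i) (hb' : b' ∈ M4 i)
    (hne : ((0, b * sq3 w i / 3) : K × K) ≠ (0, b' * sq3 w i / 3))
    (h1 : inc x (0, b * sq3 w i / 3)) (h2 : inc x (0, b' * sq3 w i / 3)) :
    Third w i x (0, b * sq3 w i / 3) (0, b' * sq3 w i / 3) := by
  have hs : sq3 w i = -i * (2 * w + 1) := rfl
  have hb0 := M4_ne_zero i hi hb
  obtain ⟨cib, cnb, cnib⟩ := clos4 i hi hb
  simp only [inc] at h1 h2
  rcases M4_rel hi hb hb' with h | h | h | h <;> subst h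
  · exact absurd rfl hne
  · refine ⟨_, EE_t w i cnb, ?_, ?_, ?_⟩
    · simp only [ne_eq, Prod.mk.injEq, not_and]; intro _; grind
    · simp only [ne_eq, Prod.mk.injEq, not_and]; intro _; grind
    · simp only [inc]; grind
  · refine ⟨_, EE_t w i cib, ?_, ?_, ?_⟩
    · simp only [ne_eq, Prod.mk.injEq, not_and]; intro _; grind
    · simp only [ne_eq, Prod.mk.injEq, not_and]; intro _; grind
    · simp only [inc]; grind
  · refine ⟨_, EE_t w i cnb, ?_, ?_, ?_⟩
    · simp only [ne_eq, Prod.mk.injEq, not_and]; intro _; grind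
    · simp only [ne_eq, Prod.mk.injEq, not_and]; intro _; grind
    · simp only [inc]; grind

include hw hi in
lemma third_UT {a b : K} (ha : a ∈ M3 w) (hb : b ∈ M4 i)
    (h1 : inc x (a * (sq3 w i - 1) / 2, 0)) (h2 : inc x (0, b * sq3 w i / 3)) :
    Third w i x (a * (sq3 w i - 1) / 2, 0) (0, b * sq3 w i / 3) := by
  have hs : sq3 w i = -i * (2 * w + 1) := rfl
  have ha0 := M3_ne_zero w hw ha
  have hb0 := M4_ne_zero i hi hb
  obtain ⟨cwa, cwwa⟩ := clos3 w hw ha
  obtain ⟨cib, cnb, cnib⟩ := clos4 i hi hb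
  simp only [inc] at h1 h2
  refine ⟨(a, -b), EE_grid w i ha cnb, ?_, ?_, ?_⟩
  · simp only [ne_eq, Prod.mk.injEq, not_and]; intro _; grind
  · simp only [ne_eq, Prod.mk.injEq, not_and]; intro _; grind
  · simp only [inc]; grind

include hw hi in
lemma third_VT {a b : K} (ha : a ∈ M3 w) (hb : b ∈ M4 i)
    (h1 : inc x (-a * (sq3 w i + 1) / 2, 0)) (h2 : inc x (0, b * sq3 w i / 3)) :
    Third w i x (-a * (sq3 w i + 1) / 2, 0) (0, b * sq3 w i / 3) := by
  have hs : sq3 w i = -i * (2 * w + 1) := rfl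
  have ha0 := M3_ne_zero w hw ha
  have hb0 := M4_ne_zero i hi hb
  obtain ⟨cwa, cwwa⟩ := clos3 w hw ha
  obtain ⟨cib, cnb, cnib⟩ := clos4 i hi hb
  simp only [inc] at h1 h2
  refine ⟨(a, b), EE_grid w i ha hb, ?_, ?_, ?_⟩
  · simp only [ne_eq, Prod.mk.injEq, not_and]; intro _; grind
  · simp only [ne_eq, Prod.mk.injEq, not_and]; intro _; grind
  · simp only [inc]; grind

omit [CharZero K] in
lemma EE_cases {e : K × K} (he : e ∈ EE w i) :
    (∃ a ∈ M3 w, ∃ b ∈ M4 i, e = (a, b)) ∨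
    (∃ a ∈ M3 w, e = (a * (sq3 w i - 1) / 2, 0)) ∨
    (∃ a ∈ M3 w, e = (-a * (sq3 w i + 1) / 2, 0)) ∨
    (∃ b ∈ M4 i, e = (0, b * sq3 w i / 3)) := by
  unfold EE at he
  simp only [Finset.mem_union, Finset.mem_image, Finset.mem_product] at he
  rcases he with ((h | ⟨a, ha, h⟩) | ⟨a, ha, h⟩) | ⟨b, hb, h⟩
  · exact Or.inl ⟨e.1, h.1, e.2, h.2, rfl⟩
  · exact Or.inr (Or.inl ⟨a, ha, h.symm⟩)
  · exact Or.inr (Or.inr (Or.inl ⟨a, ha, h.symm⟩))
  · exact Or.inr (Or.inr (Or.inr ⟨b, hb, h.symm⟩))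

include hw hi in
/-- Through the intersection point of two of the lines passes a third one. -/
lemma third_all {e f : K × K} (he : e ∈ EE w i) (hf : f ∈ EE w i) (hne : e ≠ f)
    (h1 : inc x e) (h2 : inc x f) : Third w i x e f := by
  rcases EE_cases w i he with ⟨a, ha, b, hb, rfl⟩ | ⟨a, ha, rfl⟩ | ⟨a, ha, rfl⟩ | ⟨b, hb, rfl⟩ <;>
  rcases EE_cases w i hf with ⟨a', ha', b', hb', rfl⟩ | ⟨a', ha', rfl⟩ | ⟨a', ha', rfl⟩ |
    ⟨b', hb', rfl⟩
  · exact third_GG w i hw hi x ha hb ha' hb' hne h1 h2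
  · exact third_GU w i hw hi x ha hb ha' h1 h2
  · exact third_GV w i hw hi x ha hb ha' h1 h2
  · exact third_GT w i hw hi x ha hb hb' h1 h2
  · exact (third_GU w i hw hi x ha' hb' ha h2 h1).symm
  · exact third_UU w i hw hi x ha ha' hne h1 h2
  · exact third_UV w i hw hi x ha ha' h1 h2
  · exact third_UT w i hw hi x ha hb' h1 h2
  · exact (third_GV w i hw hi x ha' hb' ha h2 h1).symm
  · exact (third_UV w i hw hi x ha' ha h2 h1).symm
  · exact third_VV w i hw hi x ha ha' hne h1 h2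
  · exact third_VT w i hw hi x ha hb' h1 h2
  · exact (third_GT w i hw hi x ha' hb' hb h2 h1).symm
  · exact (third_UT w i hw hi x ha' hb h2 h1).symm
  · exact (third_VT w i hw hi x ha' hb h2 h1).symm
  · exact third_TT w i hw hi x hb hb' hne h1 h2

end

omit [CharZero K] [DecidableEq K] in
lemma rep_inc (c d : K) (x : Fin 3 → K) :
    (∑ j : Fin 3, (Projectivization.mk K ![1, c, d] (lin_one_ne_zero c d)).rep j * x j = 0) ↔
      inc x (c, d) := by
  obtain ⟨a, ha⟩ := Projectivization.exists_smul_eq_mk_rep K ![1, c, d] (lin_one_ne_zero c d)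
  rw [← ha]
  have : ∑ j : Fin 3, (a • ![1, c, d]) j * x j = (a : K) * (x 0 + c * x 1 + d * x 2) := by
    rw [Fin.sum_univ_three]
    simp only [Units.smul_def, Pi.smul_apply, smul_eq_mul, Matrix.cons_val]
    ring
  rw [this, mul_eq_zero]
  simp [inc]

omit [CharZero K] [DecidableEq K] in
lemma mk_inj {c d c' d' : K} (h : Projectivization.mk K ![1, c, d] (lin_one_ne_zero c d) =
    Projectivization.mk K ![1, c', d'] (lin_one_ne_zero c' d')) : (c, d) = (c', d') := by
  rw [Projectivization.mk_eq_mk_iff'] at h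
  obtain ⟨t, ht⟩ := h
  have h0 := congrFun ht 0
  have h1 := congrFun ht 1
  have h2 := congrFun ht 2
  simp only [Matrix.cons_val_one, Matrix.cons_val_zero, Pi.smul_apply, smul_eq_mul,
    Matrix.cons_val] at h0 h1 h2
  have ht1 : t = 1 := by linear_combination h0
  rw [ht1, one_mul] at h1 h2
  rw [h1, h2]

include hw hi in
theorem no_double : ¬ ∃ p : Projectivization K (Fin 3 → K), ∃ H₁ ∈ AA w i, ∃ H₂ ∈ AA w i,
    H₁ ≠ H₂ ∧ ∀ H ∈ AA w i, (∑ j : Fin 3, H.rep j * p.rep j = 0 ↔ (H = H₁ ∨ H = H₂)) := by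
  classical
  rintro ⟨p, H₁, hH₁, H₂, hH₂, hne, hall⟩
  have i1 := (hall H₁ hH₁).mpr (Or.inl rfl)
  have i2 := (hall H₂ hH₂).mpr (Or.inr rfl)
  unfold AA at hH₁ hH₂
  rw [Finset.mem_image] at hH₁ hH₂
  obtain ⟨e, he, rfl⟩ := hH₁
  obtain ⟨f, hf, rfl⟩ := hH₂
  rw [rep_inc] at i1 i2
  have hef : e ≠ f := by
    rintro rfl
    exact hne rfl
  obtain ⟨g, hg, hge, hgf, hginc⟩ := third_all w i hw hi p.rep he hf hef i1 i2
  have hgA : Projectivization.mk K ![1, g.1, g.2] (lin_one_ne_zero g.1 g.2) ∈ AA w i := by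
    unfold AA
    exact Finset.mem_image_of_mem (fun e : K × K => Projectivization.mk K ![1, e.1, e.2]
      (lin_one_ne_zero e.1 e.2)) hg
  rcases (hall _ hgA).mp ((rep_inc g.1 g.2 p.rep).mpr hginc) with h | h
  · exact hge (mk_inj h)
  · exact hgf (mk_inj h)

end Pool.Agent.MP_8e3df5_co
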