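import Pool.Agent.H.MP_8e3df5_co.Conf

/-!
The arrangement of 22 lines is not free.
-/

set_option autoImplicit false

namespace Pool.Agent.MP_8e3df5_co

open MvPolynomial

variable {K : Type*} [Field K] [CharZero K] [DecidableEq K]
variable (w i : K) (hw : w ^ 2 + w + 1 = 0) (hi : i ^ 2 = -1)

include hw hi in
lemma low {θ : Der K} (hθ : θ ∈ DA (AA w i)) (k : ℕ) (hk : k ≤ 8)
    (hhom : ∀ j, (θ (X j)).IsHomogeneous k) : ∃ g, ∀ j, θ (X j) = g * X j := by
  apply euler_of_lines θ k hhom (M3 w ×ˢ M4 i)
  · intro e he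
    rw [Finset.mem_product] at he
    exact mem_AA w i (EE_grid w i he.1 he.2) hθ
  · intro e he
    rw [Finset.mem_product] at he
    have ha0 := M3_ne_zero w hw he.1
    have hb0 := M4_ne_zero i hi he.2
    have e1 : ∀ j, PP w i e.1 e.2 j 1 - e.1 * PP w i e.1 e.2 j 0 = e.1 * dx w i j := by
      intro j; simp only [PP, Matrix.cons_val]; ring
    have e2 : ∀ j, PP w i e.1 e.2 j 2 - e.2 * PP w i e.1 e.2 j 0 = e.2 * dy i j := by
      intro j; simp only [PP, Matrix.cons_val]; ring
    apply minor_line θ k hhom e.1 e.2 (mem_AA w i (EE_grid w i he.1 he.2) hθ)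
      (Finset.univ : Finset (Fin 10)) (PP w i e.1 e.2)
    · intro j _
      exact mem_AA w i (PP_mem w i hw hi he.1 he.2 j) hθ
    · intro j _ l _ hjl
      rw [e1, e1, e2, e2]
      intro h
      apply dxy w i hw hi j l hjl
      apply mul_left_cancel₀ (mul_ne_zero ha0 hb0)
      linear_combination h
    · intro j _
      rw [e1, e2]
      rcases dxy_ne w i hw hi j with h | h
      · exact Or.inl (mul_ne_zero ha0 h)
      · exact Or.inr (mul_ne_zero hb0 h)
    · rw [Finset.card_univ, Fintype.card_fin]
      omega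
  · rw [Finset.card_product, M3_card w hw, M4_card i hi]
    omega

/-- The six lines through a special point. -/
def C6 : Finset K :=
  (M3 w).image (fun a => a * (sq3 w i - 1) / 2) ∪ (M3 w).image (fun a => -a * (sq3 w i + 1) / 2)

include hw hi in
lemma C6_card : (C6 w i).card = 6 := by
  have hs : sq3 w i = -i * (2 * w + 1) := rfl
  unfold C6
  rw [Finset.card_union_of_disjoint, Finset.card_image_of_injective,
    Finset.card_image_of_injective, M3_card w hw]
  · intro a b h
    have h2 : -a * (sq3 w i + 1) / 2 = -b * (sq3 w i + 1) / 2 := h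
    have h3 : sq3 w i + 1 ≠ 0 := by grind
    grind
  · intro a b h
    have h2 : a * (sq3 w i - 1) / 2 = b * (sq3 w i - 1) / 2 := h
    have h3 : sq3 w i - 1 ≠ 0 := by grind
    grind
  · rw [Finset.disjoint_left]
    intro x h1 h2
    rw [Finset.mem_image] at h1 h2
    obtain ⟨a, ha, rfl⟩ := h1
    obtain ⟨b, hb, h⟩ := h2
    simp only [M3, Finset.mem_insert, Finset.mem_singleton] at ha hb
    rcases ha with ha | ha | ha <;> rcases hb with hb | hb | hb <;> subst ha <;> subst hb <;>
      grind

include hw hi in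
lemma mid {θ : Der K} (hθ : θ ∈ DA (AA w i)) (k : ℕ) (hk : k ≤ 12)
    (hhom : ∀ j, (θ (X j)).IsHomogeneous k) : X 1 ∣ θ (X 1) := by
  have h0 : (0 : K) ∉ M4 i := fun h => M4_ne_zero i hi h rfl
  apply mid_of θ k hhom (insert 0 (M4 i)) (fun d => if d = 0 then C6 w i else M3 w)
    (fun d => if d = 0 then 5 else 2)
  · intro d _
    by_cases hd : d = 0
    · simp only [hd, if_true]
      exact C6_card w i hw hi
    · simp only [hd, if_false]
      exact M3_card w hw
  · intro d hd c hc
    by_cases hd0 : d = 0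
    · subst hd0
      simp only [if_true] at hc
      unfold C6 at hc
      rw [Finset.mem_union, Finset.mem_image, Finset.mem_image] at hc
      rcases hc with ⟨a, ha, rfl⟩ | ⟨a, ha, rfl⟩
      · exact mem_AA w i (EE_u w i ha) hθ
      · exact mem_AA w i (EE_v w i ha) hθ
    · simp only [hd0, if_false] at hc
      have hd4 : d ∈ M4 i := by
        rcases Finset.mem_insert.mp hd with h | h
        · exact absurd h hd0
        · exact h
      exact mem_AA w i (EE_grid w i hc hd4) hθ
  · rw [Finset.sum_insert h0]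
    have : ∑ d ∈ M4 i, (if d = 0 then 5 else 2) = ∑ d ∈ M4 i, 2 := by
      apply Finset.sum_congr rfl
      intro d hd
      rw [if_neg (M4_ne_zero i hi hd)]
    rw [this, Finset.sum_const, M4_card i hi]
    simp
    omega

include hw hi in
theorem not_free_AA : ¬ Module.Free (MvPolynomial (Fin 3) K) (DA (AA w i)) := by
  have hne : (AA w i).Nonempty := by
    classical
    unfold AA
    rw [Finset.image_nonempty]
    refine ⟨(1, 1), EE_grid w i ?_ ?_⟩
    · simp [M3]
    · simp [M4]
  apply not_free_of (DA (AA w i)) (AA w i).card 12 8 (QA (AA w i)) (QA_hom _) (QA_ne_zero _)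
    (X_one_not_dvd _ (fun H hH => AA_rep w i hH))
    (fun θ hθ n => comp_mem _ θ hθ n) (exists_rank _)
    (fun Δ hΔ => det_dvd_QA _ hne (fun H hH => AA_rep w i hH) Δ hΔ)
    (fun θ hθ k hk hh => low w i hw hi hθ k hk hh)
    (fun θ hθ k hk hh => mid w i hw hi hθ k hk hh)
    (AA_card w i)

end Pool.Agent.MP_8e3df5_co
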